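import Mathlib

/-!
# Polynomials which vanish on a part of a quadric
-/

set_option autoImplicit false

namespace Pool.Agent.H833.CV

open MvPolynomial

variable {L : Type} [Field L]

/-- The equation of a quadric. -/
noncomputable def Qd {n : ℕ} (e : Fin n → L) : MvPolynomial (Fin n) L := ∑ i, C (e i) * X i ^ 2

theorem eval_Qd {n : ℕ} (e y : Fin n → L) : eval y (Qd e) = ∑ i, e i * y i ^ 2 := by
  simp [Qd]

theorem Qd_ne {n : ℕ} (hn : 1 ≤ n) {e : Fin n → L} (he : ∀ i, e i ≠ 0) : Qd e ≠ 0 := by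
  intro h
  have h1 := congrArg (eval (Pi.single (⟨0, hn⟩ : Fin n) (1 : L))) h
  rw [eval_Qd, map_zero, Finset.sum_eq_single ⟨0, hn⟩] at h1
  · rw [Pi.single_eq_same, one_pow, mul_one] at h1
    exact he _ h1
  · intro j _ hj
    rw [Pi.single_eq_of_ne hj]; ring
  · intro h; exact absurd (Finset.mem_univ _) h

theorem fse_Qd {n : ℕ} {e : Fin (n + 1) → L} (he : ∀ i, e i ≠ 0) :
    finSuccEquiv L n (Qd e) = Polynomial.C (C (e 0)) *
      (Polynomial.X ^ 2 + Polynomial.C (C (e 0)⁻¹ * Qd fun i => e i.succ)) := by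
  have h0 : ∀ a : L, finSuccEquiv L n (C a) = Polynomial.C (C a) := by
    intro a
    have h2 : (finSuccEquiv L n) (algebraMap L _ a) = algebraMap L _ a :=
      (finSuccEquiv L n).commutes a
    rw [algebraMap_eq] at h2
    rw [h2]
    rfl
  have h1 : (C (e 0) : MvPolynomial (Fin n) L) * C (e 0)⁻¹ = 1 := by
    rw [← C_mul, mul_inv_cancel₀ (he 0), C_1]
  rw [mul_add, Qd, map_sum, Fin.sum_univ_succ]
  congr 1
  · rw [map_mul, map_pow, h0, finSuccEquiv_X_zero]
  have h3 : Polynomial.C (C (e 0)) * Polynomial.C (C (e 0)⁻¹ * Qd fun i : Fin n => e i.succ) =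
      Polynomial.C (Qd fun i : Fin n => e i.succ) := by
    rw [← Polynomial.C_mul, ← mul_assoc, h1, one_mul]
  rw [h3, Qd, map_sum]
  refine Finset.sum_congr rfl fun i _ => ?_
  rw [Polynomial.C_mul, Polynomial.C_pow, map_mul, map_pow, h0, finSuccEquiv_X_succ]

theorem dvd_of_vanish [IsAlgClosed L] [CharZero L] {n : ℕ} (hn : 2 ≤ n) {e w : Fin (n + 1) → L}
    (he : ∀ i, e i ≠ 0) (hw : w ≠ 0) (P : MvPolynomial (Fin (n + 1)) L)
    (h : ∀ y : Fin (n + 1) → L, ∑ i, e i * y i ^ 2 = 0 → ∑ i, w i * y i ≠ 0 → eval y P = 0) :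
    Qd e ∣ P := by
  set Q2 : MvPolynomial (Fin n) L := Qd fun i => e i.succ with hQ2
  set M : Polynomial (MvPolynomial (Fin n) L) :=
    Polynomial.X ^ 2 + Polynomial.C (C (e 0)⁻¹ * Q2) with hM
  have hMm : M.Monic := Polynomial.monic_X_pow_add_C _ two_ne_zero
  have hfQ : finSuccEquiv L n (Qd e) = Polynomial.C (C (e 0)) * M := fse_Qd he
  set ell : MvPolynomial (Fin n) L := ∑ i : Fin n, C (w i.succ) * X i with hell
  set R0 : MvPolynomial (Fin n) L := ell ^ 2 + C (w 0 ^ 2 * (e 0)⁻¹) * Q2 with hR0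
  have eR0 : ∀ s, eval s R0 = (∑ i : Fin n, w i.succ * s i) ^ 2 +
      w 0 ^ 2 * (e 0)⁻¹ * ∑ i : Fin n, e i.succ * s i ^ 2 := by
    intro s
    rw [hR0, hell, hQ2]
    simp only [map_add, map_mul, map_pow, map_sum, eval_C, eval_X, eval_Qd]
  have hR0n : R0 ≠ 0 := by
    intro h0
    have k0 : ∀ s : Fin n → L, (∑ i : Fin n, w i.succ * s i) ^ 2 +
      w 0 ^ 2 * (e 0)⁻¹ * ∑ i : Fin n, e i.succ * s i ^ 2 = 0 := by
      intro s; rw [← eR0, h0, map_zero]
    have k1 : ∀ i : Fin n, w i.succ ^ 2 + w 0 ^ 2 * (e 0)⁻¹ * e i.succ = 0 := by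
      intro i
      have := k0 (Pi.single i 1)
      rw [Finset.sum_eq_single i, Finset.sum_eq_single i] at this
      · rw [Pi.single_eq_same] at this
        linear_combination this
      · intro j _ hj; rw [Pi.single_eq_of_ne hj]; ring
      · intro h; exact absurd (Finset.mem_univ _) h
      · intro j _ hj; rw [Pi.single_eq_of_ne hj]; ring
      · intro h; exact absurd (Finset.mem_univ _) h
    have k2 : ∀ i j : Fin n, i ≠ j → w i.succ * w j.succ = 0 := by
      intro i j hij
      have := k0 (Pi.single i 1 + Pi.single j 1)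
      have e1 : ∑ l : Fin n, w l.succ * (Pi.single i 1 + Pi.single j 1 : Fin n → L) l =
          w i.succ + w j.succ := by
        simp only [Pi.add_apply, mul_add, Finset.sum_add_distrib, Pi.single_apply, mul_ite,
          mul_one, mul_zero, Finset.sum_ite_eq', Finset.mem_univ, if_true]
      have e2 : ∑ l : Fin n, e l.succ * (Pi.single i 1 + Pi.single j 1 : Fin n → L) l ^ 2 =
          e i.succ + e j.succ := by
        have : ∀ l : Fin n, (Pi.single i 1 + Pi.single j 1 : Fin n → L) l ^ 2 =
            (Pi.single i 1 + Pi.single j 1 : Fin n → L) l := by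
          intro l
          simp only [Pi.add_apply, Pi.single_apply]
          by_cases h1 : l = i
          · subst h1
            simp [hij]
          · by_cases h2 : l = j
            · subst h2
              simp [h1]
            · simp [h1, h2]
        simp only [this]
        simp only [Pi.add_apply, mul_add, Finset.sum_add_distrib, Pi.single_apply, mul_ite,
          mul_one, mul_zero, Finset.sum_ite_eq', Finset.mem_univ, if_true]
      rw [e1, e2] at this
      have h2 : (2 : L) * (w i.succ * w j.succ) = 0 := by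
        linear_combination this - k1 i - k1 j
      exact (mul_eq_zero.1 h2).resolve_left two_ne_zero
    by_cases hw0 : w 0 = 0
    · apply hw
      funext i
      refine Fin.cases hw0 (fun i => ?_) i
      have := k1 i
      rw [hw0] at this
      have : w i.succ ^ 2 = 0 := by linear_combination this
      simpa using this
    · have k3 : ∀ i : Fin n, w i.succ ≠ 0 := by
        intro i hi
        have := k1 i
        rw [hi] at this
        have h3 : w 0 ^ 2 * (e 0)⁻¹ * e i.succ = 0 := by linear_combination this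
        have h4 : w 0 ^ 2 * (e 0)⁻¹ * e i.succ ≠ 0 :=
          mul_ne_zero (mul_ne_zero (pow_ne_zero _ hw0) (inv_ne_zero (he 0))) (he _)
        exact h4 h3
      have h01 : (⟨0, by omega⟩ : Fin n) ≠ ⟨1, by omega⟩ := by
        intro h; simp at h
      exact mul_ne_zero (k3 _) (k3 _) (k2 _ _ h01)
  have hQ2n : Q2 ≠ 0 := Qd_ne (by omega) fun i => he i.succ
  set Pt := finSuccEquiv L n P with hPt
  set R := Pt %ₘ M with hR
  have hdiv : R + M * (Pt /ₘ M) = Pt := Polynomial.modByMonic_add_div Pt M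
  have hdeg : R.degree ≤ 1 := by
    have h1 : R.degree < M.degree := Polynomial.degree_modByMonic_lt _ hMm
    have h2 : M.degree = 2 := Polynomial.degree_X_pow_add_C (by norm_num) _
    rw [h2] at h1
    exact Order.le_of_lt_succ h1
  have hRe : R = Polynomial.C (R.coeff 1) * Polynomial.X + Polynomial.C (R.coeff 0) :=
    Polynomial.eq_X_add_C_of_degree_le_one hdeg
  have key : ∀ s : Fin n → L, eval s R0 ≠ 0 → eval s (R.coeff 0) = 0 ∧
      eval s (R.coeff 1) ^ 2 * eval s Q2 = 0 := by
    intro s hs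
    obtain ⟨y, hy⟩ := IsAlgClosed.exists_pow_nat_eq (-((e 0)⁻¹ * eval s Q2)) (n := 2) two_pos
    have hQs : eval s Q2 = ∑ i : Fin n, e i.succ * s i ^ 2 := by rw [hQ2, eval_Qd]
    have ev : ∀ y' : L, y' ^ 2 = -((e 0)⁻¹ * eval s Q2) → w 0 * y' + ∑ i : Fin n, w i.succ * s i ≠ 0 →
        eval s (R.coeff 1) * y' + eval s (R.coeff 0) = 0 := by
      intro y' hy' hl
      have h1 := h (Fin.cons y' s) (by
        rw [Fin.sum_univ_succ]
        simp only [Fin.cons_zero, Fin.cons_succ]
        rw [hy', hQs]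
        have := he 0
        field_simp
        ring) (by
        rw [Fin.sum_univ_succ]
        simpa only [Fin.cons_zero, Fin.cons_succ] using hl)
      rw [eval_eq_eval_mv_eval', ← hPt, ← hdiv, hRe] at h1
      simp only [Polynomial.map_add, Polynomial.map_mul, Polynomial.map_C, Polynomial.map_X,
        Polynomial.eval_add, Polynomial.eval_mul, Polynomial.eval_C, Polynomial.eval_X, hM,
        Polynomial.map_pow, Polynomial.eval_pow, map_mul, eval_C] at h1
      rw [hy'] at h1
      simpa using h1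
    have hprod : (w 0 * y + ∑ i : Fin n, w i.succ * s i) *
        (w 0 * (-y) + ∑ i : Fin n, w i.succ * s i) ≠ 0 := by
      have : (w 0 * y + ∑ i : Fin n, w i.succ * s i) *
        (w 0 * (-y) + ∑ i : Fin n, w i.succ * s i) = eval s R0 := by
        rw [eR0, ← hQs]
        linear_combination (-(w 0) ^ 2) * hy
      rw [this]; exact hs
    have h1 := ev y hy (left_ne_zero_of_mul hprod)
    have h2 := ev (-y) (by rw [neg_sq, hy]) (right_ne_zero_of_mul hprod)
    have h3 : (2 : L) * eval s (R.coeff 0) = 0 := by linear_combination h1 + h2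
    have h4 : (2 : L) * (eval s (R.coeff 1) * y) = 0 := by linear_combination h1 - h2
    have h3' := (mul_eq_zero.1 h3).resolve_left two_ne_zero
    have h4' := (mul_eq_zero.1 h4).resolve_left two_ne_zero
    refine ⟨h3', ?_⟩
    have h5 : eval s (R.coeff 1) ^ 2 * ((e 0)⁻¹ * eval s Q2) = 0 := by
      linear_combination ((eval s (R.coeff 1)) ^ 2) * hy - eval s (R.coeff 1) * y * h4'
    have h6 : (e 0)⁻¹ * (eval s (R.coeff 1) ^ 2 * eval s Q2) = 0 := by linear_combination h5
    exact (mul_eq_zero.1 h6).resolve_left (inv_ne_zero (he 0))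
  have hc0 : R.coeff 0 = 0 := by
    have h1 : R.coeff 0 * R0 = 0 := by
      apply MvPolynomial.funext
      intro s
      rw [map_mul, map_zero]
      by_cases hs : eval s R0 = 0
      · rw [hs, mul_zero]
      · rw [(key s hs).1, zero_mul]
    exact (mul_eq_zero.1 h1).resolve_right hR0n
  have hc1 : R.coeff 1 = 0 := by
    have h1 : R.coeff 1 ^ 2 * Q2 * R0 = 0 := by
      apply MvPolynomial.funext
      intro s
      rw [map_mul, map_mul, map_pow, map_zero]
      by_cases hs : eval s R0 = 0
      · rw [hs, mul_zero]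
      · rw [(key s hs).2, zero_mul]
    have h2 := (mul_eq_zero.1 ((mul_eq_zero.1 h1).resolve_right hR0n)).resolve_right hQ2n
    simpa using h2
  have hR00 : R = 0 := by
    rw [hRe, hc0, hc1]; simp
  rw [hR00, zero_add] at hdiv
  have hfin : finSuccEquiv L n (Qd e) ∣ finSuccEquiv L n P := by
    rw [hfQ, ← hPt, ← hdiv]
    refine ⟨Polynomial.C (C (e 0)⁻¹) * (Pt /ₘ M), ?_⟩
    have h1 : Polynomial.C (C (e 0) : MvPolynomial (Fin n) L) * Polynomial.C (C (e 0)⁻¹) = 1 := by
      rw [← Polynomial.C_mul, ← C_mul, mul_inv_cancel₀ (he 0), C_1, Polynomial.C_1]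
    linear_combination (-(M * (Pt /ₘ M))) * h1
  exact (map_dvd_iff (finSuccEquiv L n)).1 hfin

end Pool.Agent.H833.CV
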