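import Mathlib
import Pool.Agent.H833.CV.Quad

/-!
# Symmetric products and polynomials
-/

set_option autoImplicit false

namespace Pool.Agent.H833.CV

open MvPolynomial

variable {L : Type} [Field L] {A : Type} [CommRing A] [Algebra L A] {r m : ℕ}

/-- The polynomial of a tensor. -/
noncomputable def Pol (t : (Fin m → Fin r) → L) : MvPolynomial (Fin r) L :=
  ∑ I, C (t I) * ∏ j, X (I j)

theorem eval_Pol (t : (Fin m → Fin r) → L) (y : Fin r → L) :
    eval y (Pol t) = ∑ I, t I * ∏ j, y (I j) := by
  simp [Pol]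

theorem prod_swap {u : Fin m → Fin r → A} (sym : ∀ j k a b, u j a * u k b = u k a * u j b)
    (I : Fin m → Fin r) (x y : Fin m) :
    ∏ j, u (Equiv.swap x y j) (I j) = ∏ j, u j (I j) := by
  classical
  by_cases hxy : x = y
  · subst hxy
    simp
  · have hy : y ∈ Finset.univ.erase x := Finset.mem_erase.2 ⟨fun h => hxy h.symm, Finset.mem_univ _⟩
    rw [← Finset.mul_prod_erase Finset.univ _ (Finset.mem_univ x),
      ← Finset.mul_prod_erase Finset.univ (fun j => u j (I j)) (Finset.mem_univ x),
      ← Finset.mul_prod_erase _ _ hy, ← Finset.mul_prod_erase _ (fun j => u j (I j)) hy,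
      ← mul_assoc, ← mul_assoc]
    congr 1
    · rw [Equiv.swap_apply_left, Equiv.swap_apply_right]
      exact sym y x _ _
    · refine Finset.prod_congr rfl fun j hj => ?_
      have h1 := Finset.ne_of_mem_erase hj
      have h2 := Finset.ne_of_mem_erase (Finset.mem_of_mem_erase hj)
      rw [Equiv.swap_apply_of_ne_of_ne h2 h1]

theorem prod_perm {u : Fin m → Fin r → A} (sym : ∀ j k a b, u j a * u k b = u k a * u j b)
    (I : Fin m → Fin r) (σ : Equiv.Perm (Fin m)) :
    ∏ j, u (σ j) (I j) = ∏ j, u j (I j) := by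
  classical
  induction σ using Equiv.Perm.swap_induction_on generalizing u with
  | one => rfl
  | swap_mul f x y _ ih =>
    have h1 := ih (u := fun j => u (Equiv.swap x y j)) (fun j k a b => sym _ _ _ _)
    have h2 := prod_swap sym I x y
    exact h1.trans h2

theorem sum_single_iff (κ : Fin m → Fin m) :
    (∑ j, Finsupp.single (κ j) 1 : Fin m →₀ ℕ) = ∑ k, Finsupp.single k 1 ↔
      Function.Bijective κ := by
  constructor
  · intro h
    have hs : Function.Surjective κ := by
      intro k
      have h1 := DFunLike.congr_fun h k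
      rw [Finsupp.finsetSum_apply, Finsupp.finsetSum_apply] at h1
      have h2 : ∑ j : Fin m, (Finsupp.single j 1 : Fin m →₀ ℕ) k = 1 := by
        simp [Finsupp.single_apply]
      rw [h2] at h1
      by_contra hc
      push Not at hc
      rw [Finset.sum_eq_zero] at h1
      · exact absurd h1 (by norm_num)
      · intro j _
        rw [Finsupp.single_apply, if_neg (hc j)]
    exact ⟨Finite.injective_iff_surjective.2 hs, hs⟩
  · intro h
    exact Equiv.sum_comp (Equiv.ofBijective κ h) (fun k => (Finsupp.single k 1 : Fin m →₀ ℕ))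

theorem coeff_prod (a : Fin m → Fin m → A) :
    coeff (∑ k, Finsupp.single k 1) (∏ j, ∑ k, C (a j k) * X k : MvPolynomial (Fin m) A) =
      ∑ σ : Equiv.Perm (Fin m), ∏ j, a j (σ j) := by
  classical
  rw [Finset.prod_univ_sum, coeff_sum, Fintype.piFinset_univ]
  have h1 : ∀ κ : Fin m → Fin m, coeff (∑ k, Finsupp.single k 1)
      (∏ j, C (a j (κ j)) * X (κ j) : MvPolynomial (Fin m) A) =
      if Function.Bijective κ then ∏ j, a j (κ j) else 0 := by
    intro κ
    rw [Finset.prod_mul_distrib, ← map_prod, coeff_C_mul]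
    have h2 : (∏ j, X (κ j) : MvPolynomial (Fin m) A) =
        monomial (∑ j, Finsupp.single (κ j) 1) 1 := by
      rw [monomial_sum_one]
      rfl
    rw [h2, coeff_monomial]
    by_cases h : Function.Bijective κ
    · rw [if_pos ((sum_single_iff κ).2 h), if_pos h, mul_one]
    · rw [if_neg (fun h' => h ((sum_single_iff κ).1 h')), if_neg h, mul_zero]
  rw [Finset.sum_congr rfl fun κ _ => h1 κ, ← Finset.sum_filter]
  symm
  refine Finset.sum_nbij (fun σ : Equiv.Perm (Fin m) => (σ : Fin m → Fin m)) ?_ ?_ ?_ ?_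
  · intro σ _
    exact Finset.mem_filter.2 ⟨Finset.mem_univ _, σ.bijective⟩
  · intro σ _ τ _ h
    exact DFunLike.coe_injective h
  · intro κ hκ
    have := (Finset.mem_filter.1 (Finset.mem_coe.1 hκ)).2
    exact ⟨Equiv.ofBijective κ this, Finset.mem_coe.2 (Finset.mem_univ _), rfl⟩
  · intro σ _
    rfl

/-- If the polynomial of a tensor is divisible by the equation of the quadric, then the
corresponding sum of products is zero. -/
theorem phi_zero [CharZero L] {e : Fin r → L} {t : (Fin m → Fin r) → L} (h : Qd e ∣ Pol t)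
    {u : Fin m → Fin r → A} (sym : ∀ j k a b, u j a * u k b = u k a * u j b)
    (dg : ∀ j k, ∑ i, e i • (u j i * u k i) = 0) :
    ∑ I, t I • ∏ j, u j (I j) = 0 := by
  classical
  set f : Fin r → MvPolynomial (Fin m) A := fun i => ∑ k, C (u k i) * X k with hf
  have hQ : aeval f (Qd e) = 0 := by
    unfold Qd
    rw [map_sum]
    have h1 : ∀ i, aeval f (C (e i) * X i ^ 2 : MvPolynomial (Fin r) L) =
        ∑ j, ∑ k, C (e i • (u j i * u k i)) * (X j * X k) := by
      intro i
      rw [map_mul, map_pow, aeval_X, ← algebraMap_eq, AlgHom.commutes, ← Algebra.smul_def, hf]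
      simp only
      rw [sq, Finset.sum_mul_sum, Finset.smul_sum]
      refine Finset.sum_congr rfl fun j _ => ?_
      rw [Finset.smul_sum]
      refine Finset.sum_congr rfl fun k _ => ?_
      rw [C_eq_smul_one, C_eq_smul_one, C_eq_smul_one, smul_assoc, mul_smul]
      simp only [smul_mul_assoc, mul_smul_comm, one_mul, mul_one]
      rw [smul_comm (u j i) (u k i)]
    rw [Finset.sum_congr rfl fun i _ => h1 i, Finset.sum_comm]
    refine Finset.sum_eq_zero fun j _ => ?_
    rw [Finset.sum_comm]
    refine Finset.sum_eq_zero fun k _ => ?_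
    rw [← Finset.sum_mul, ← map_sum, dg, map_zero, zero_mul]
  obtain ⟨S, hS⟩ := h
  have hP : aeval f (Pol t) = 0 := by
    rw [hS, map_mul, hQ, zero_mul]
  have h2 : aeval f (Pol t) = ∑ I, t I • ∏ j, ∑ k, C (u k (I j)) * X k := by
    unfold Pol
    rw [map_sum]
    refine Finset.sum_congr rfl fun I _ => ?_
    rw [map_mul, map_prod, ← algebraMap_eq, AlgHom.commutes, ← Algebra.smul_def]
    simp only [aeval_X, hf]
  have h3 := congrArg (coeff (∑ k, Finsupp.single k 1)) (h2.symm.trans hP)
  rw [coeff_sum, coeff_zero] at h3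
  have h4 : ∀ I : Fin m → Fin r, coeff (∑ k, Finsupp.single k 1)
      (t I • ∏ j, ∑ k, C (u k (I j)) * X k : MvPolynomial (Fin m) A) =
      (m.factorial : ℕ) • (t I • ∏ j, u j (I j)) := by
    intro I
    rw [coeff_smul, coeff_prod (fun j k => u k (I j)),
      Finset.sum_congr rfl fun σ _ => prod_perm sym I σ, Finset.sum_const, Finset.card_univ,
      Fintype.card_perm, Fintype.card_fin, smul_comm]
  rw [Finset.sum_congr rfl fun I _ => h4 I, ← Finset.smul_sum] at h3
  have h5 : ((m.factorial : ℕ) : L) ≠ 0 := by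
    exact_mod_cast m.factorial_ne_zero
  rw [← Nat.cast_smul_eq_nsmul L] at h3
  exact (smul_eq_zero_iff_right h5).1 h3

end Pool.Agent.H833.CV
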