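import Mathlib
import Pool.Agent.H833.CV.Polar
import Pool.Graph.R_pool_sql_team_seeded_2aa45f1a.Q263.K3.FFT

/-!
# Subspaces of tensors which are stable under the orthogonal Lie algebra
-/

set_option autoImplicit false

namespace Pool.Agent.H833.CV

open Function Polynomial
open Pool.Agent.Q263.K3 (act Tens)

variable {L : Type} [Field L] {r m : ℕ}

/-- The bilinear form with diagonal entries `d`. -/
def bil (d u v : Fin r → L) : L := ∑ i, d i * u i * v i

/-- The operator `x ↦ (u, x) v - (v, x) u`. -/
def rot (d u v : Fin r → L) : Matrix (Fin r) (Fin r) L :=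
  fun i j => (v i * u j - u i * v j) * d j

/-- The exchange of the value in a slot. -/
def flip {r m : ℕ} (k : Fin m) : Equiv.Perm ((Fin m → Fin r) × Fin r) :=
  Function.Involutive.toPerm (fun p => (update p.1 k p.2, p.1 k)) fun p => by
    simp

theorem act_pair {B : Type} [CommRing B] [Algebra L B] (X : Matrix (Fin r) (Fin r) L)
    (s : Tens r m L) (φ : Fin r → B) :
    ∑ I, act X s I • ∏ j, φ (I j) =
      ∑ I, s I • ∑ k, (∑ a, X a (I k) • φ a) * ∏ l ∈ Finset.univ.erase k, φ (I l) := by
  classical
  have h1 : ∑ I, act X s I • ∏ j, φ (I j) =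
      ∑ k : Fin m, ∑ p : (Fin m → Fin r) × Fin r,
        (X (p.1 k) p.2 * s (update p.1 k p.2)) • ∏ l, φ (p.1 l) := by
    simp only [act, Finset.sum_smul, Fintype.sum_prod_type, smul_eq_mul]
    rw [Finset.sum_comm]
  rw [h1]
  simp only [Finset.smul_sum]
  conv_rhs => rw [Finset.sum_comm]
  refine Finset.sum_congr rfl fun k _ => ?_
  rw [← Equiv.sum_comp (flip k), Fintype.sum_prod_type]
  refine Finset.sum_congr rfl fun I _ => ?_
  rw [Finset.sum_mul, Finset.smul_sum]
  refine Finset.sum_congr rfl fun a _ => ?_
  have e1 : (flip k (I, a)).1 = update I k a := rfl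
  have e2 : (flip k (I, a)).2 = I k := rfl
  rw [e1, e2, update_self, update_idem, update_eq_self,
    ← Finset.mul_prod_erase Finset.univ _ (Finset.mem_univ k), update_self]
  have e3 : ∏ l ∈ Finset.univ.erase k, φ (update I k a l) = ∏ l ∈ Finset.univ.erase k, φ (I l) :=
    Finset.prod_congr rfl fun l hl => by rw [update_of_ne (Finset.ne_of_mem_erase hl)]
  rw [e3, smul_mul_assoc, smul_smul, mul_comm (s I)]

variable {d ω ω' : Fin r → L}

/-- A subspace which is stable under the orthogonal Lie algebra and vanishes at one point of the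
cone of the isotropic vectors vanishes at all points (outside a hyperplane). -/
theorem cone_vanish [CharZero L] (hω : bil d ω ω = 0) (hω' : bil d ω' ω' = 0)
    (hh : bil d ω ω' ≠ 0) {V : Set (Tens r m L)}
    (hV : ∀ u v, ∀ s ∈ V, act (rot d u v) s ∈ V)
    (h0 : ∀ s ∈ V, ∑ I, s I * ∏ j, (d (I j) * ω' (I j)) = 0) {v : Fin r → L}
    (hv : bil d v v = 0) (he : bil d v ω ≠ 0) : ∀ s ∈ V, ∑ I, s I * ∏ j, (d (I j) * v (I j)) = 0 := by
  classical
  set h := bil d ω ω' with hhdef
  set e := bil d v ω with hedef
  set a := e / h with ha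
  set c := bil d v ω' / h with hc
  set n : Fin r → L := fun i => v i - a * ω' i - c * ω i with hn
  have hah : a * h = e := div_mul_cancel₀ _ hh
  have hch : c * h = bil d v ω' := div_mul_cancel₀ _ hh
  have q1 : bil d ω' ω = h := by
    rw [hhdef]; unfold bil; exact Finset.sum_congr rfl fun i _ => by ring
  -- the products of `n`
  have qn : ∀ x, bil d n x = bil d v x - a * bil d ω' x - c * bil d ω x := by
    intro x
    unfold bil
    rw [Finset.mul_sum, Finset.mul_sum, ← Finset.sum_sub_distrib, ← Finset.sum_sub_distrib]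
    exact Finset.sum_congr rfl fun i _ => by simp only [hn]; ring
  have qc : ∀ x y : Fin r → L, bil d x y = bil d y x := by
    intro x y; unfold bil; exact Finset.sum_congr rfl fun i _ => by ring
  have n1 : bil d n ω = 0 := by
    rw [qn, q1, hω, ← hedef, mul_zero, sub_zero, hah, sub_self]
  have n2 : bil d n ω' = 0 := by
    rw [qn, hω', ← hhdef, mul_zero, sub_zero, hch, sub_self]
  have n3 : bil d n n = -(2 * c * e) := by
    rw [qn, qc ω' n, qc ω n, n1, n2, qc v n, qn, hv, qc ω' v, qc ω v, ← hch, ← hedef, ← hah]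
    ring
  set γ : Fin r → L[X] := fun i => C (a * ω' i) + X * C (n i) + X ^ 2 * C (c * ω i) with hγ
  set φ : Fin r → L[X] := fun i => C (d i) * γ i with hφ
  set u : Fin r → L := fun i => e⁻¹ * ω i with hu
  have hγd : ∀ i, derivative (γ i) = C (n i) + X * C (2 * c * ω i) := by
    intro i
    simp only [hγ, derivative_add, derivative_mul, derivative_C, derivative_X, derivative_X_pow,
      zero_add, mul_zero, add_zero, one_mul]
    simp only [map_mul]
    norm_num
    ring
  have hk : ∀ b, ∑ x, rot d u n x b • φ x = -(C (d b) * derivative (γ b)) := by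
    intro b
    have e1 : ∑ x, rot d u n x b • φ x =
        C (d b * u b) * ∑ x, C (d x * n x) * γ x - C (d b * n b) * ∑ x, C (d x * u x) * γ x := by
      rw [Finset.mul_sum, Finset.mul_sum, ← Finset.sum_sub_distrib]
      refine Finset.sum_congr rfl fun x _ => ?_
      rw [Polynomial.smul_eq_C_mul]
      simp only [rot, hφ, map_mul, map_sub]
      ring
    have e2 : ∀ y : Fin r → L, ∑ x, C (d x * y x) * γ x = C (a * bil d y ω') + X * C (bil d y n) +
        X ^ 2 * C (c * bil d y ω) := by
      intro y
      unfold bil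
      rw [Finset.mul_sum, Finset.mul_sum, map_sum, map_sum, map_sum, Finset.mul_sum,
        Finset.mul_sum, ← Finset.sum_add_distrib, ← Finset.sum_add_distrib]
      refine Finset.sum_congr rfl fun x _ => ?_
      simp only [hγ, map_mul]
      ring
    have u1 : ∀ x, bil d u x = e⁻¹ * bil d ω x := by
      intro x
      unfold bil
      rw [Finset.mul_sum]
      exact Finset.sum_congr rfl fun i _ => by simp only [hu]; ring
    rw [e1, e2 n, e2 u, n2, n3, n1, u1, u1, u1, hω, qc ω n, n1, ← hhdef, hγd]
    have e3 : a * (e⁻¹ * h) = 1 := by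
      have : a * (e⁻¹ * h) = e⁻¹ * (a * h) := by ring
      rw [this, hah, inv_mul_cancel₀ he]
    have e4 : e⁻¹ * e = 1 := inv_mul_cancel₀ he
    rw [e3]
    simp only [mul_zero, map_zero, add_zero, zero_add, map_one, mul_one, hu, map_mul, map_neg]
    have e5 : (C e⁻¹ : L[X]) * C e = 1 := by rw [← C_mul, e4, C_1]
    linear_combination (-(C (d b) * C (ω b) * X * C 2 * C c)) * e5
  set G : Tens r m L → L[X] := fun s => ∑ I, s I • ∏ j, φ (I j) with hG
  have hGd : ∀ s, derivative (G s) = -G (act (rot d u n) s) := by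
    intro s
    simp only [hG]
    rw [act_pair, derivative_sum, ← Finset.sum_neg_distrib]
    refine Finset.sum_congr rfl fun I _ => ?_
    rw [derivative_smul, ← smul_neg, derivative_prod_finset, ← Finset.sum_neg_distrib]
    congr 1
    refine Finset.sum_congr rfl fun k _ => ?_
    rw [hk, neg_mul, neg_neg, mul_comm]
    congr 1
    simp only [hφ, derivative_mul, derivative_C, zero_mul, zero_add]
  have hG0 : ∀ s ∈ V, (G s).coeff 0 = 0 := by
    intro s hs
    have e1 : (G s).coeff 0 = a ^ m * ∑ I, s I * ∏ j, (d (I j) * ω' (I j)) := by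
      rw [Polynomial.coeff_zero_eq_eval_zero, hG]
      simp only [Polynomial.eval_finsetSum, Polynomial.eval_smul, Polynomial.eval_prod, smul_eq_mul]
      rw [Finset.mul_sum]
      refine Finset.sum_congr rfl fun I _ => ?_
      have : ∏ j, Polynomial.eval 0 (φ (I j)) = a ^ m * ∏ j, (d (I j) * ω' (I j)) := by
        have e2 : ∀ j, Polynomial.eval 0 (φ (I j)) = a * (d (I j) * ω' (I j)) := by
          intro j
          simp only [hφ, hγ, Polynomial.eval_mul, Polynomial.eval_add, Polynomial.eval_C, Polynomial.eval_X, Polynomial.eval_pow]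
          ring
        rw [Finset.prod_congr rfl fun j _ => e2 j, Finset.prod_mul_distrib, Finset.prod_const,
          Finset.card_univ, Fintype.card_fin]
      rw [this]
      ring
    rw [e1, h0 s hs, mul_zero]
  have hGk : ∀ k, ∀ s ∈ V, (derivative^[k] (G s)).coeff 0 = 0 := by
    intro k
    induction k with
    | zero => exact hG0
    | succ k ih =>
      intro s hs
      rw [Function.iterate_succ_apply, hGd, iterate_derivative_neg, coeff_neg,
        ih _ (hV _ _ s hs), neg_zero]
  intro s hs
  have hGs : G s = 0 := by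
    ext k
    have h1 := hGk k s hs
    rw [coeff_iterate_derivative, zero_add, Nat.descFactorial_self] at h1
    rw [coeff_zero]
    have h2 : ((k.factorial : ℕ) : L) ≠ 0 := by exact_mod_cast k.factorial_ne_zero
    rw [nsmul_eq_mul] at h1
    exact (mul_eq_zero.1 h1).resolve_left h2
  have h1 := congrArg (Polynomial.eval 1) hGs
  rw [Polynomial.eval_zero, hG] at h1
  simp only [Polynomial.eval_finsetSum, Polynomial.eval_smul, Polynomial.eval_prod, smul_eq_mul] at h1
  rw [← h1]
  refine Finset.sum_congr rfl fun I _ => ?_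
  congr 1
  refine Finset.prod_congr rfl fun j _ => ?_
  simp only [hφ, hγ, Polynomial.eval_mul, Polynomial.eval_add, Polynomial.eval_C, Polynomial.eval_X, Polynomial.eval_pow, hn]
  ring

end Pool.Agent.H833.CV
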