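import Pool.Agent.H833.EK.DefK

/-!
# Galois representations and classes at the generic point
-/

set_option autoImplicit false

namespace Pool.Agent.H833.CV

open Pool.Agent.H833.EK

/-- The pull back of classes to the generic point. `S` is a K3 surface over a number field, `L` is an
algebraic closure of `ℚ_ℓ`, `K` an algebraic closure of the function field of a variety `Y`, and `A` the
even `ℓ`-adic cohomology (with coefficients in `L`) of the generic point of `Y`, that is, the limit of
the cohomology of the open subsets of the varieties which are generically finite over `Y`. The vectors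
`e i`, `i : Fin r`, are an orthogonal basis of the transcendental part `T` of `H²(S, L)`, and the
intersection form has the diagonal entries `d i`. A point `x` of `S` over `K` is a morphism to `S` from
a variety which is generically finite over `Y`, and `cl x i` is the pull back of `e i`. -/
structure LClasses {K : Type} [Field K] [CharZero K] (S : Geo K) {r : ℕ} {L : Type} [Field L]
    (d : Fin r → L) (A : Type) [CommRing A] [Algebra L A] where
  cl : S.Pt K → Fin r → A
  /-- zero-cycles on the square which are rationally equivalent to zero act as zero -/
  rat : ∀ z ∈ S.Rat 2, ∀ a b, (z.sum fun x q => (q : L) • (cl (x 0) a * cl (x 1) b)) = 0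
  /-- there are constant points -/
  cst : ∃ p, ∀ i, cl p i = 0
  /-- the pull back of the class of the diagonal of `S × S` under `(x, x')`; the other terms of this
  class are classes of divisors and of points -/
  diag : ∀ x x', ∑ i, (d i)⁻¹ • (cl x i * cl x' i) = 0

/-- The action of the matrix `g` on the tensors of degree `m`. -/
def tpow {r m : ℕ} {L : Type} [Field L] (g : Matrix (Fin r) (Fin r) L)
    (s : (Fin m → Fin r) → L) : (Fin m → Fin r) → L :=
  fun I => ∑ J, (∏ l, g (I l) (J l)) * s J

/-- The Zariski closure of the set of the matrices `R σ` contains the special orthogonal group: a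
polynomial in the entries of a matrix which vanishes at all `R σ` vanishes on this group. -/
def BigImage {r : ℕ} {L : Type} [Field L] (d : Fin r → L) {Γ : Type}
    (R : Γ → Matrix (Fin r) (Fin r) L) : Prop :=
  ∀ P : MvPolynomial (Fin r × Fin r) L,
    (∀ σ, MvPolynomial.eval (fun p => R σ p.1 p.2) P = 0) →
    ∀ g : Matrix (Fin r) (Fin r) L, g.transpose * Matrix.diagonal d * g = Matrix.diagonal d →
      g.det = 1 → MvPolynomial.eval (fun p => g p.1 p.2) P = 0

/-- `F` is the Frobenius operator on `T` at a place of good ordinary reduction, with residue field
of `q` elements: it multiplies the intersection form by `q ^ 2`, and one eigenvalue `β` is a unit at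
a place of the algebraic numbers above the prime `p` which divides `q`, so that no quotient
`β ^ m / q` is an algebraic integer. -/
structure OrdFrob {r : ℕ} {L : Type} [Field L] (d : Fin r → L) (F : Matrix (Fin r) (Fin r) L)
    (q : ℕ) : Prop where
  sim : F.transpose * Matrix.diagonal d * F = (q : L) ^ 2 • Matrix.diagonal d
  ord : ∃ (β : L) (w : Fin r → L), w ≠ 0 ∧ F.mulVec w = β • w ∧
    ∀ m : ℕ, ¬ IsIntegral ℤ (β ^ m / q)

end Pool.Agent.H833.CV
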