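import Pool.Agent.H833.EK.DefK

/-!
# Ordinary K3 surfaces over finite fields: definitions
-/

set_option autoImplicit false

namespace Pool.Agent.H833.CV

open Polynomial
open Pool.Agent.H833.EK

/-- `α i`, `i : Fin n`, are the eigenvalues of the Frobenius endomorphism on the transcendental part
`T` (of rank `n`) of the second cohomology of an ordinary K3 surface over the field of `q` elements,
and `P` is its characteristic polynomial on `T`. -/
structure OrdWeil (p q : ℕ) {L : Type} [Field L] {n : ℕ} (P : ℤ[X]) (α : Fin n → L) : Prop where
  prime : p.Prime
  pow : ∃ f : ℕ, 0 < f ∧ q = p ^ f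
  two : 2 ≤ n
  roots : P.map (algebraMap ℤ L) = ∏ i, (X - C (α i))
  /-- Deligne's theorem -/
  weil : ∀ z : ℂ, (P.map (algebraMap ℤ ℂ)).IsRoot z → ‖z‖ = q
  /-- `T` is the transcendental part: no eigenvalue is `q` times a root of unity -/
  trans : ∀ i N, 0 < N → α i ^ N ≠ (q : L) ^ N
  /-- the surface is ordinary: the trace of Frobenius is not divisible by `p` -/
  unit : ¬ (p : ℤ) ∣ P.coeff (n - 1)
  /-- the Newton polygon lies above the Hodge polygon with the slopes `0, 1, ..., 1, 2` -/
  slopes : ∀ j, j < n → (q : ℤ) ^ (n - 1 - j) ∣ P.coeff j

/-- The pull back of classes to the generic point. `S₀` is a K3 surface over the field of `q` elements,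
`L` is an algebraic closure of `ℚ_ℓ`, and `e i`, `i : Fin n`, is a basis of the transcendental part
`T ⊗ L` of `H²(S₀, L)` which consists of eigenvectors of Frobenius with the eigenvalues `α i`. `A` is
the even `ℓ`-adic cohomology, with coefficients in `L`, of the generic point of a variety `Y` over
an algebraic closure of the finite field, that is, the limit of the cohomology of the open subsets of
the varieties which are generically finite over `Y`. Let `κ` be an algebraic closure of the
function field of `Y`, and let `K` be an algebraically closed field of characteristic zero with a valuation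
with the residue field `κ` (an algebraic closure of the field of fractions of the Witt vectors of `κ`).
`S` is a K3 surface over `K` with good reduction `S₀ ⊗ κ`: a lift of `S₀` to characteristic zero. The
points `x` of `S` over `K` have reductions, which are points of `S₀` over `κ`, and `cl x i` is the pull
back of `e i` under the reduction of `x`. -/
structure FClasses {K : Type} [Field K] [CharZero K] (S : Geo K) {n : ℕ} {L : Type} [Field L]
    (α : Fin n → L) (A : Type) [CommRing A] [Algebra L A] where
  cl : S.Pt K → Fin n → A
  /-- zero-cycles on the square which are rationally equivalent to zero act as zero, since their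
  reductions are rationally equivalent to zero -/
  rat : ∀ z ∈ S.Rat 2, ∀ a b, (z.sum fun x q => (q : L) • (cl (x 0) a * cl (x 1) b)) = 0
  /-- there are constant points -/
  cst : ∃ p, ∀ i, cl p i = 0
  /-- the Frobenius endomorphism of `S₀` maps the reduction of `x` to the reduction of some point
  `x'` of `S` -/
  frob : ∀ x, ∃ x', ∀ i, cl x' i = α i • cl x i

/-- The indices of a basis of the cohomology of a K3 surface: `none` is the class `1`,
`some (inl i)` is the `i`-th basis vector of the transcendental part `T` of `H ^ 2`, and
`some (inr j)`, for the `a` values of `j`, are classes of divisors and of a point. -/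
abbrev BasO (n a : ℕ) : Type := Option (Fin n ⊕ Fin a)

/-- The eigenvalues of Frobenius on the cohomology of a K3 surface: `1` for the class `1`, `α i` on
`T` and `γ j` for the classes of divisors and of a point. -/
def eigB {L : Type} [Field L] {n a : ℕ} (α : Fin n → L) (γ : Fin a → L) : BasO n a → L
  | none => 1
  | some (Sum.inl i) => α i
  | some (Sum.inr j) => γ j

/-- The pull backs of the classes in the cohomology of `S` to the generic point: the classes of
divisors and of points become zero. -/
def FClasses.clB {K : Type} [Field K] [CharZero K] {S : Geo K} {n : ℕ} {L : Type} [Field L]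
    {α : Fin n → L} {A : Type} [CommRing A] [Algebra L A] (c : FClasses S α A) {a : ℕ}
    (x : S.Pt K) : BasO n a → A
  | none => 1
  | some (Sum.inl i) => c.cl x i
  | some (Sum.inr _) => 0

/-- The Frobenius endomorphism on the tensor product of the cohomology of the surfaces `τ l`,
`l : Fin m`, and of the space `H` with the Frobenius endomorphism `Φ`, on the coordinates (with
values in `H`) with respect to the basis of the products of the classes of the bases. -/
def frobT {L : Type} [Field L] {r m : ℕ} {n a : Fin r → ℕ} (α : ∀ s, Fin (n s) → L)
    (γ : ∀ s, Fin (a s) → L) (τ : Fin m → Fin r) {H : Type} [AddCommGroup H] [Module L H]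
    (Φ : H →ₗ[L] H) (t : (∀ l, BasO (n (τ l)) (a (τ l))) → H) :
    (∀ l, BasO (n (τ l)) (a (τ l))) → H :=
  fun I => (∏ l, eigB (α (τ l)) (γ (τ l)) (I l)) • Φ (t I)

/-- There is one surface and the eigenvalues of `Φ` are rational numbers, or the Galois group of the
field generated by the eigenvalues of `Φ` acts transitively on the families `s ↦ α s (g s)` of
eigenvalues of the surfaces: the fields are linearly disjoint. -/
def LinDisj {L : Type} [Field L] [CharZero L] {r : ℕ} {n : Fin r → ℕ} (α : ∀ s, Fin (n s) → L)
    {H : Type} [AddCommGroup H] [Module L H] (Φ : H →ₗ[L] H) : Prop :=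
  (r = 1 ∧ ∀ η, Module.End.HasEigenvalue Φ η → ∃ x : ℚ, η = (x : L)) ∨
    ∀ g g' : ∀ s, Fin (n s), ∃ σ : L ≃+* L, (∀ s, σ (α s (g s)) = α s (g' s)) ∧
      ∀ η, Module.End.HasEigenvalue Φ η → σ η = η

/-- The generalised Tate conjecture in coniveau one for the cohomology group `H` of a variety `Z` over
the field of `q` elements. `Φ` is the Frobenius endomorphism and `ρ` is the restriction of the
classes to the generic point: a subspace which is stable under Frobenius vanishes at the generic
point if the eigenvalues of Frobenius on the subspace are divisible by `q`. The eigenvalues on `H`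
are algebraic integers. -/
structure Tate1 {L : Type} [Field L] [CharZero L] (q : ℕ) {H : Type} [AddCommGroup H] [Module L H]
    (Φ : H →ₗ[L] H) {A : Type} [AddCommGroup A] [Module L A] (ρ : H →ₗ[L] A) : Prop where
  int : ∀ η, Module.End.HasEigenvalue Φ η → IsIntegral ℤ η
  con : ∀ W : Submodule L H, (∀ w ∈ W, Φ w ∈ W) →
    (∀ η : L, ∀ w ∈ W, w ≠ 0 → Φ w = η • w → IsIntegral ℤ (η / q)) → ∀ w ∈ W, ρ w = 0

end Pool.Agent.H833.CV
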