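import Pool.Agent.H833.CV.DefG
import Pool.Agent.H833.CV.Cone
import Pool.Agent.H833.EK.Kim2

/-!
# Subspaces of tensors which are stable under a big Galois group
-/

set_option autoImplicit false
set_option linter.unusedSectionVars false

namespace Pool.Agent.H833.CV

open Matrix
open Pool.Agent.H833.EK

variable {L : Type} [Field L] {r m : ℕ} {d : Fin r → L}

/-- The value of a tensor at a linear form. -/
noncomputable def ev (y : Fin r → L) : ((Fin m → Fin r) → L) →ₗ[L] L :=
  ∑ I, (∏ l, y (I l)) • LinearMap.proj I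

theorem ev_apply (y : Fin r → L) (s : (Fin m → Fin r) → L) :
    ev y s = ∑ I, s I * ∏ l, y (I l) := by
  unfold ev
  rw [LinearMap.sum_apply]
  refine Finset.sum_congr rfl fun I _ => ?_
  rw [LinearMap.smul_apply, LinearMap.proj_apply, smul_eq_mul, mul_comm]

theorem ev_tpow (g : Matrix (Fin r) (Fin r) L) (y : Fin r → L) (s : (Fin m → Fin r) → L) :
    ev y (tpow g s) = ev (gᵀ.mulVec y) s := by
  rw [ev_apply, ev_apply]
  simp only [tpow, Finset.sum_mul]
  rw [Finset.sum_comm]
  refine Finset.sum_congr rfl fun I _ => ?_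
  have h1 : ∏ l, gᵀ.mulVec y (I l) = ∑ J : Fin m → Fin r, ∏ l, (g (J l) (I l) * y (J l)) := by
    simp only [Matrix.mulVec, dotProduct, Matrix.transpose_apply]
    rw [Finset.prod_univ_sum, Fintype.piFinset_univ]
  rw [h1, Finset.mul_sum]
  refine Finset.sum_congr rfl fun J _ => ?_
  rw [Finset.prod_mul_distrib]
  ring

theorem ev_smul (a : L) (y : Fin r → L) (s : (Fin m → Fin r) → L) :
    ev (a • y) s = a ^ m * ev y s := by
  rw [ev_apply, ev_apply, Finset.mul_sum]
  refine Finset.sum_congr rfl fun I _ => ?_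
  simp only [Pi.smul_apply, smul_eq_mul]
  rw [Finset.prod_mul_distrib, Finset.prod_const, Finset.card_univ, Fintype.card_fin]
  ring

theorem tpow_linear (g : Matrix (Fin r) (Fin r) L) :
    ∃ φ : ((Fin m → Fin r) → L) →ₗ[L] ((Fin m → Fin r) → L), ∀ s, φ s = tpow g s := by
  refine ⟨⟨⟨tpow g, ?_⟩, ?_⟩, fun _ => rfl⟩
  · intro x y
    funext I
    simp [tpow, mul_add, Finset.sum_add_distrib]
  · intro c x
    funext I
    simp [tpow, Finset.mul_sum, mul_left_comm]

/-- A subspace which is stable under the matrices `R σ` is stable under the orthogonal group. -/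
theorem stable_of_big {Γ : Type} {R : Γ → Matrix (Fin r) (Fin r) L} (hR : BigImage d R)
    {V : Submodule L ((Fin m → Fin r) → L)} (hV : ∀ σ, ∀ s ∈ V, tpow (R σ) s ∈ V)
    {g : Matrix (Fin r) (Fin r) L} (hg : gᵀ * Matrix.diagonal d * g = Matrix.diagonal d)
    (hg1 : g.det = 1) {s : (Fin m → Fin r) → L} (hs : s ∈ V) : tpow g s ∈ V := by
  classical
  by_contra hc
  obtain ⟨f, hf, hf0⟩ := Submodule.exists_le_ker_of_notMem hc
  have hfe : ∀ x : (Fin m → Fin r) → L, f x = ∑ I, f (Pi.single I 1) * x I := by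
    intro x
    rw [f.pi_apply_eq_sum_univ x]
    refine Finset.sum_congr rfl fun I _ => ?_
    rw [smul_eq_mul, mul_comm]
    congr 2
    funext J
    rw [Pi.single_apply]
    by_cases h : I = J
    · rw [if_pos h, if_pos h.symm]
    · rw [if_neg h, if_neg (Ne.symm h)]
  let P : MvPolynomial (Fin r × Fin r) L := ∑ I : Fin m → Fin r, ∑ J : Fin m → Fin r,
    MvPolynomial.C (f (Pi.single I 1) * s J) * ∏ l, MvPolynomial.X (I l, J l)
  have hP : ∀ h : Matrix (Fin r) (Fin r) L,
      MvPolynomial.eval (fun p => h p.1 p.2) P = f (tpow h s) := by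
    intro h
    rw [hfe]
    simp only [P, map_sum, map_mul, map_prod, MvPolynomial.eval_C, MvPolynomial.eval_X, tpow,
      Finset.mul_sum]
    refine Finset.sum_congr rfl fun I _ => Finset.sum_congr rfl fun J _ => ?_
    ring
  apply hf
  rw [← hP]
  refine hR P (fun σ => ?_) g hg hg1
  rw [hP]
  exact LinearMap.mem_ker.1 (hf0 (hV σ s hs))

section eich

variable {u n : Fin r → L}

theorem rot_sq (hu : bil d u u = 0) (hn : bil d u n = 0) (i j : Fin r) :
    (rot d u n * rot d u n) i j = -(bil d n n * u i * u j * d j) := by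
  have hn' : ∑ k, d k * n k * u k = 0 := by
    rw [← hn]; unfold bil; exact Finset.sum_congr rfl fun k _ => by ring
  have e : ∀ k, rot d u n i k * rot d u n k j =
      (n i * u j * d j) * (d k * u k * n k) - (n i * n j * d j) * (d k * u k * u k) -
        (u i * u j * d j) * (d k * n k * n k) + (u i * n j * d j) * (d k * n k * u k) := by
    intro k
    simp only [rot]
    ring
  rw [Matrix.mul_apply, Finset.sum_congr rfl fun k _ => e k, Finset.sum_add_distrib,
    Finset.sum_sub_distrib, Finset.sum_sub_distrib, ← Finset.mul_sum, ← Finset.mul_sum,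
    ← Finset.mul_sum, ← Finset.mul_sum, hn']
  change _ * bil d u n - _ * bil d u u - _ * bil d n n + _ = _
  rw [hu, hn]
  ring

theorem rot_cube (hu : bil d u u = 0) (hn : bil d u n = 0) :
    rot d u n * (rot d u n * rot d u n) = 0 := by
  ext i j
  rw [Matrix.mul_apply]
  simp only [rot_sq hu hn, Matrix.zero_apply]
  have hn' : ∑ k, d k * n k * u k = 0 := by
    rw [← hn]; unfold bil; exact Finset.sum_congr rfl fun k _ => by ring
  have e : ∀ k, rot d u n i k * -(bil d n n * u k * u j * d j) =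
      -(n i * bil d n n * u j * d j) * (d k * u k * u k) +
        (u i * bil d n n * u j * d j) * (d k * n k * u k) := by
    intro k
    simp only [rot]
    ring
  rw [Finset.sum_congr rfl fun k _ => e k, Finset.sum_add_distrib, ← Finset.mul_sum,
    ← Finset.mul_sum, hn']
  change _ * bil d u u + _ = 0
  rw [hu]
  ring

theorem rot_skew : (rot d u n)ᵀ * Matrix.diagonal d = -(Matrix.diagonal d * rot d u n) := by
  ext i j
  rw [Matrix.mul_diagonal, Matrix.neg_apply, Matrix.diagonal_mul, Matrix.transpose_apply]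
  simp only [rot]
  ring

/-- The one parameter group. -/
noncomputable def eich (X : Matrix (Fin r) (Fin r) L) (t : L) : Matrix (Fin r) (Fin r) L :=
  1 + t • X + (t ^ 2 / 2) • (X * X)

theorem eich_mul [CharZero L] {X : Matrix (Fin r) (Fin r) L} (hX : X * (X * X) = 0) (t s : L) :
    eich X t * eich X s = eich X (t + s) := by
  have h4 : X * X * (X * X) = 0 := by rw [Matrix.mul_assoc, hX, Matrix.mul_zero]
  have h3 : X * X * X = 0 := by rw [Matrix.mul_assoc, hX]
  unfold eich
  simp only [Matrix.mul_add, Matrix.add_mul, Matrix.mul_one, Matrix.one_mul, Matrix.smul_mul,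
    Matrix.mul_smul, h4, h3, hX, smul_zero, add_zero]
  module

theorem eich_zero (X : Matrix (Fin r) (Fin r) L) : eich X 0 = 1 := by
  simp [eich]

theorem eich_orth [CharZero L] {X : Matrix (Fin r) (Fin r) L}
    (hs : Xᵀ * Matrix.diagonal d = -(Matrix.diagonal d * X)) (t : L) :
    (eich X t)ᵀ * Matrix.diagonal d = Matrix.diagonal d * eich X (-t) := by
  have h2 : (X * X)ᵀ * Matrix.diagonal d = Matrix.diagonal d * (X * X) := by
    rw [Matrix.transpose_mul, Matrix.mul_assoc, hs, Matrix.mul_neg, ← Matrix.mul_assoc, hs,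
      Matrix.neg_mul, neg_neg, Matrix.mul_assoc]
  unfold eich
  simp only [Matrix.transpose_add, Matrix.transpose_one, Matrix.transpose_smul, Matrix.add_mul,
    Matrix.mul_add, Matrix.one_mul, Matrix.mul_one, Matrix.smul_mul, Matrix.mul_smul, h2, hs]
  module

theorem eich_iso [CharZero L] {X : Matrix (Fin r) (Fin r) L} (hX : X * (X * X) = 0)
    (hs : Xᵀ * Matrix.diagonal d = -(Matrix.diagonal d * X)) (t : L) :
    (eich X t)ᵀ * Matrix.diagonal d * eich X t = Matrix.diagonal d := by
  rw [eich_orth hs, Matrix.mul_assoc, eich_mul hX, neg_add_cancel, eich_zero, Matrix.mul_one]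

theorem eich_det [CharZero L] (hd : ∀ i, d i ≠ 0) {X : Matrix (Fin r) (Fin r) L}
    (hX : X * (X * X) = 0)
    (hs : Xᵀ * Matrix.diagonal d = -(Matrix.diagonal d * X)) (t : L) : (eich X t).det = 1 := by
  have h1 : eich X t = eich X (t / 2) * eich X (t / 2) := by
    rw [eich_mul hX]; congr 1; ring
  have h2 := congrArg Matrix.det (eich_iso hX hs (t / 2))
  rw [Matrix.det_mul, Matrix.det_mul, Matrix.det_transpose, Matrix.det_diagonal] at h2
  have h3 : (∏ i, d i) ≠ 0 := Finset.prod_ne_zero_iff.2 fun i _ => hd i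
  rw [h1, Matrix.det_mul]
  have h4 : (∏ i, d i) * ((eich X (t / 2)).det * (eich X (t / 2)).det - 1) = 0 := by
    linear_combination h2
  have h5 := (mul_eq_zero.1 h4).resolve_left h3
  linear_combination h5

end eich

/-- A subspace which is stable under the special orthogonal group and vanishes at one isotropic
linear form vanishes at all of them (outside a hyperplane). -/
theorem orth_vanish [CharZero L] (hd : ∀ i, d i ≠ 0) {ω ω' : Fin r → L} (hω : bil d ω ω = 0)
    (hω' : bil d ω' ω' = 0) (hh : bil d ω ω' ≠ 0) {V : Submodule L ((Fin m → Fin r) → L)}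
    (hV : ∀ g : Matrix (Fin r) (Fin r) L, gᵀ * Matrix.diagonal d * g = Matrix.diagonal d →
      g.det = 1 → ∀ s ∈ V, tpow g s ∈ V)
    (h0 : ∀ s ∈ V, ev (fun i => d i * ω' i) s = 0) {v : Fin r → L}
    (hv : bil d v v = 0) (he : bil d v ω ≠ 0) : ∀ s ∈ V, ev (fun i => d i * v i) s = 0 := by
  intro s hs
  set h := bil d ω ω' with hhdef
  set e := bil d v ω with hedef
  set a := e / h with ha
  set c := bil d v ω' / h with hc
  set n : Fin r → L := fun i => v i - a * ω' i - c * ω i with hn
  have hah : a * h = e := div_mul_cancel₀ _ hh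
  have hch : c * h = bil d v ω' := div_mul_cancel₀ _ hh
  have qc : ∀ x y : Fin r → L, bil d x y = bil d y x := by
    intro x y; unfold bil; exact Finset.sum_congr rfl fun i _ => by ring
  have q1 : bil d ω' ω = h := by rw [qc]
  have qn : ∀ x, bil d n x = bil d v x - a * bil d ω' x - c * bil d ω x := by
    intro x
    unfold bil
    rw [Finset.mul_sum, Finset.mul_sum, ← Finset.sum_sub_distrib, ← Finset.sum_sub_distrib]
    exact Finset.sum_congr rfl fun i _ => by simp only [hn]; ring
  have n1 : bil d n ω = 0 := by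
    rw [qn, q1, hω, ← hedef, mul_zero, sub_zero, hah, sub_self]
  have n2 : bil d n ω' = 0 := by
    rw [qn, hω', ← hhdef, mul_zero, sub_zero, hch, sub_self]
  have n3 : bil d n n = -(2 * c * e) := by
    rw [qn, qc ω' n, qc ω n, n1, n2, qc v n, qn, hv, qc ω' v, qc ω v, ← hch, ← hedef, ← hah]
    ring
  set u : Fin r → L := fun i => e⁻¹ * ω i with hu
  have u1 : ∀ x, bil d u x = e⁻¹ * bil d ω x := by
    intro x
    unfold bil
    rw [Finset.mul_sum]
    exact Finset.sum_congr rfl fun i _ => by simp only [hu]; ring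
  have uu : bil d u u = 0 := by rw [u1, qc, u1, hω, mul_zero, mul_zero]
  have un : bil d u n = 0 := by rw [u1, qc, n1, mul_zero]
  set X := rot d u n with hXdef
  have hX := rot_cube uu un
  have hXs : Xᵀ * Matrix.diagonal d = -(Matrix.diagonal d * X) := rot_skew
  have hXv : ∀ x, X.mulVec x = fun i => bil d u x * n i - bil d n x * u i := by
    intro x
    funext i
    simp only [Matrix.mulVec, dotProduct, hXdef, rot, bil]
    rw [Finset.sum_mul, Finset.sum_mul, ← Finset.sum_sub_distrib]
    exact Finset.sum_congr rfl fun j _ => by ring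
  -- the image of `a ω'` is `v`
  have hE : (eich X 1).mulVec (a • ω') = v := by
    have e1 : X.mulVec ω' = fun i => e⁻¹ * h * n i := by
      rw [hXv, u1, ← hhdef, n2]
      funext i; ring
    have e2 : X.mulVec (X.mulVec ω') = fun i => e⁻¹ * h * (2 * c * ω i) := by
      rw [e1]
      have : (fun i => e⁻¹ * h * n i) = (e⁻¹ * h) • n := by
        funext i; simp
      rw [this, Matrix.mulVec_smul, hXv, un, n3]
      funext i
      simp only [Pi.smul_apply, smul_eq_mul, hu]
      have : e⁻¹ * e = 1 := inv_mul_cancel₀ he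
      linear_combination (2 * c * ω i * h * e⁻¹) * this
    unfold eich
    rw [Matrix.add_mulVec, Matrix.add_mulVec, Matrix.one_mulVec, Matrix.smul_mulVec,
      Matrix.smul_mulVec, ← Matrix.mulVec_mulVec, Matrix.mulVec_smul, Matrix.mulVec_smul, e2, e1]
    funext i
    simp only [Pi.add_apply, Pi.smul_apply, smul_eq_mul, hn]
    have : a * (e⁻¹ * h) = 1 := by
      have : a * (e⁻¹ * h) = e⁻¹ * (a * h) := by ring
      rw [this, hah, inv_mul_cancel₀ he]
    linear_combination (v i - a * ω' i - c * ω i + c * ω i) * this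
  have hG := hV (eich X (-1)) (eich_iso hX hXs _) (eich_det hd hX hXs _) s hs
  have h1 := h0 _ hG
  rw [ev_tpow] at h1
  have h2 : (fun i => d i * v i) = a • ((eich X (-1))ᵀ.mulVec fun i => d i * ω' i) := by
    have h3 : (fun i => d i * ω' i) = (Matrix.diagonal d).mulVec ω' := by
      funext i; rw [Matrix.mulVec_diagonal]
    rw [h3, Matrix.mulVec_mulVec, eich_orth hXs, neg_neg, ← Matrix.mulVec_mulVec,
      ← Matrix.mulVec_smul, ← Matrix.mulVec_smul, hE]
    funext i; rw [Matrix.mulVec_diagonal]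
  rw [h2, ev_smul, h1, mul_zero]

/-- If the eigenvalues of `F` on `V` are divisible by `q` then `V` vanishes at an isotropic form. -/
theorem ord_vanish {F : Matrix (Fin r) (Fin r) L} {V : Submodule L ((Fin m → Fin r) → L)}
    (hFV : ∀ s ∈ V, tpow F s ∈ V) {y : Fin r → L} {β : L} (hy : Fᵀ.mulVec y = β • y)
    (h : ∀ s ∈ V, s ≠ 0 → tpow F s ≠ β ^ m • s) : ∀ s ∈ V, ev y s = 0 := by
  by_contra hc
  push Not at hc
  obtain ⟨s0, hs0, hs1⟩ := hc
  obtain ⟨φ, hφ⟩ := tpow_linear (m := m) F
  let ψ : V →ₗ[L] V := (φ.restrict fun s hs => by rw [hφ]; exact hFV s hs) -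
    β ^ m • LinearMap.id
  have hψ : ∀ s : V, ((ψ s : V) : (Fin m → Fin r) → L) =
      tpow F (s : (Fin m → Fin r) → L) - β ^ m • (s : (Fin m → Fin r) → L) := by
    intro s
    simp only [ψ, LinearMap.sub_apply, LinearMap.smul_apply, LinearMap.id_apply,
      Submodule.coe_sub, Submodule.coe_smul, LinearMap.coe_restrict_apply, hφ]
  have hinj : Function.Injective ψ := by
    rw [← LinearMap.ker_eq_bot, LinearMap.ker_eq_bot']
    intro s hs
    by_contra hs'
    refine h s s.2 (fun h0 => hs' (Subtype.ext h0)) ?_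
    have := congrArg (fun x : V => (x : (Fin m → Fin r) → L)) hs
    simp only [hψ] at this
    exact sub_eq_zero.1 this
  obtain ⟨s, hs⟩ := (LinearMap.injective_iff_surjective.1 hinj) ⟨s0, hs0⟩
  apply hs1
  have h1 : s0 = tpow F (s : (Fin m → Fin r) → L) - β ^ m • (s : (Fin m → Fin r) → L) := by
    rw [← hψ, hs]
  rw [h1, map_sub, map_smul, ev_tpow, hy, ev_smul, smul_eq_mul, sub_self]

variable {K : Type} [Field K] [CharZero K] [IsAlgClosed K] {S : Geo K} {A : Type} [CommRing A]
  [Algebra L A]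

/-- The products of the pull backs of classes under two points are symmetric. -/
theorem LClasses.sym [CharZero L] (hS : EllK3 S) (c : LClasses S d A) (x x' : S.Pt K)
    (a b : Fin r) : c.cl x a * c.cl x' b = c.cl x' a * c.cl x b := by
  obtain ⟨-, o, ho⟩ := hS.sw
  obtain ⟨p, hp⟩ := c.cst
  let _ : Module ℚ A := Module.compHom A (algebraMap ℚ L)
  let Φ : ((Fin 2 → S.Pt K) →₀ ℚ) →ₗ[ℚ] A :=
    Finsupp.linearCombination ℚ fun x => c.cl (x 0) a * c.cl (x 1) b
  have hΦ : S.Rat 2 ≤ LinearMap.ker Φ := by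
    intro z hz
    rw [LinearMap.mem_ker, Finsupp.linearCombination_apply, ← c.rat z hz a b]
    refine Finset.sum_congr rfl fun x _ => ?_
    change (algebraMap ℚ L (z x)) • (c.cl (x 0) a * c.cl (x 1) b) = _
    rw [eq_ratCast]
  have key : ∀ x x' : S.Pt K,
      c.cl x a * c.cl x' b - c.cl x a * c.cl o b - c.cl o a * c.cl x' b -
        (c.cl x' a * c.cl x b - c.cl x' a * c.cl o b - c.cl o a * c.cl x b) = 0 := by
    intro x x'
    have h1 := ho 2 0 1 (by decide) (fun _ => o) x x'
    have h2 := congrArg ((S.Rat 2).liftQ Φ hΦ) h1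
    have h3 : ∀ y y' : S.Pt K, (S.Rat 2).liftQ Φ hΦ (S.cl₂ 0 1 (fun _ => o) y y') =
        c.cl y a * c.cl y' b := by
      intro y y'
      change (S.Rat 2).liftQ Φ hΦ ((S.Rat 2).mkQ (Finsupp.single _ 1)) = _
      rw [Submodule.mkQ_apply, Submodule.liftQ_apply, Finsupp.linearCombination_single, one_smul]
      rfl
    unfold Geo.Wd at h2
    simpa only [map_sub, map_zero, h3] using h2
  have h1 : ∀ x : S.Pt K, c.cl x a * c.cl o b = c.cl o a * c.cl x b := by
    intro x
    have := key x p
    rw [hp a, hp b] at this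
    simp only [mul_zero, zero_mul, sub_zero, zero_sub] at this
    linear_combination (-1 : A) * this
  linear_combination key x x' + h1 x - h1 x'

/-- The generalised Tate conjecture in coniveau one for powers of elliptic K3 surfaces. -/
theorem gal_main [CharZero L] [IsAlgClosed L] (hS : EllK3 S) (hr : 3 ≤ r) (hd : ∀ i, d i ≠ 0)
    (c : LClasses S d A) {Γ : Type} {R : Γ → Matrix (Fin r) (Fin r) L} (hR : BigImage d R)
    {φ : Γ} {q : ℕ} (hF : OrdFrob d (R φ) q) {V : Submodule L ((Fin m → Fin r) → L)}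
    (hV : ∀ σ, ∀ s ∈ V, tpow (R σ) s ∈ V)
    (hI : ∀ α : L, ∀ s ∈ V, s ≠ 0 → tpow (R φ) s = α • s → IsIntegral ℤ (α / q))
    (x : Fin m → S.Pt K) : ∀ t ∈ V, ∑ I, t I • ∏ l, c.cl (x l) (I l) = 0 := by
  classical
  obtain ⟨n, rfl⟩ : ∃ n, r = n + 1 := ⟨r - 1, by omega⟩
  set F := R φ with hFdef
  obtain ⟨β, w, hw, hFw, hβ⟩ := hF.ord
  have hq : (q : L) ≠ 0 := by
    intro h
    apply hβ 0
    rw [h, div_zero]
    exact isIntegral_zero
  -- an eigenvector of the transpose
  obtain ⟨y, hy, hFy⟩ : ∃ y : Fin (n + 1) → L, y ≠ 0 ∧ Fᵀ.mulVec y = β • y := by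
    have h1 : (F - β • 1).det = 0 := by
      rw [← Matrix.exists_mulVec_eq_zero_iff]
      exact ⟨w, hw, by rw [Matrix.sub_mulVec, hFw, Matrix.smul_mulVec, Matrix.one_mulVec, sub_self]⟩
    rw [← Matrix.det_transpose, ← Matrix.exists_mulVec_eq_zero_iff] at h1
    obtain ⟨y, hy, h2⟩ := h1
    refine ⟨y, hy, ?_⟩
    rw [Matrix.transpose_sub, Matrix.transpose_smul, Matrix.transpose_one, Matrix.sub_mulVec,
      Matrix.smul_mulVec, Matrix.one_mulVec] at h2
    exact sub_eq_zero.1 h2
  set ω' : Fin (n + 1) → L := fun i => (d i)⁻¹ * y i with hω'def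
  have hyd : (fun i => d i * ω' i) = y := by
    funext i
    rw [hω'def, ← mul_assoc, mul_inv_cancel₀ (hd i), one_mul]
  have hyD : (Matrix.diagonal d).mulVec ω' = y := by
    rw [← hyd]; funext i; rw [Matrix.mulVec_diagonal]
  have hbil : ∀ a b : Fin (n + 1) → L, bil d a b = a ⬝ᵥ (Matrix.diagonal d).mulVec b := by
    intro a b
    unfold bil dotProduct
    refine Finset.sum_congr rfl fun i _ => ?_
    rw [Matrix.mulVec_diagonal]; ring
  -- it is isotropic
  have hFω : β • F.mulVec ω' = (q : L) ^ 2 • ω' := by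
    -- `D F ω' β = ...`
    set D := Matrix.diagonal d with hD
    have h1 : ((q : L) ^ 2)⁻¹ • (Matrix.diagonal (fun i => (d i)⁻¹) * (Fᵀ * D)) * F = 1 := by
      rw [Matrix.smul_mul, Matrix.mul_assoc, hF.sim, Matrix.mul_smul, smul_smul,
        inv_mul_cancel₀ (pow_ne_zero 2 hq), one_smul, Matrix.diagonal_mul_diagonal]
      ext i j
      by_cases hij : i = j
      · subst hij; simp [hd i]
      · simp [hij]
    have h2 := mul_eq_one_comm.1 h1
    have h3 : (F * (((q : L) ^ 2)⁻¹ • (Matrix.diagonal (fun i => (d i)⁻¹) * (Fᵀ * D)))).mulVec ω' =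
        ω' := by rw [h2, Matrix.one_mulVec]
    rw [Matrix.mul_smul, Matrix.smul_mulVec, ← Matrix.mulVec_mulVec, ← Matrix.mulVec_mulVec,
      ← Matrix.mulVec_mulVec, hyD, hFy] at h3
    have h4 : (Matrix.diagonal fun i => (d i)⁻¹).mulVec (β • y) = β • ω' := by
      rw [Matrix.mulVec_smul]
      congr 1
      funext i
      rw [Matrix.mulVec_diagonal]
    rw [h4, Matrix.mulVec_smul] at h3
    have h5 : (q : L) ^ 2 • (((q : L) ^ 2)⁻¹ • (β • F.mulVec ω')) = β • F.mulVec ω' := by
      rw [smul_smul, mul_inv_cancel₀ (pow_ne_zero 2 hq), one_smul]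
    rw [← h5, h3]
  have hβ2 : β ^ 2 ≠ (q : L) ^ 2 := by
    intro h
    apply hβ 1
    have h1 : (β ^ 1 / q) ^ 2 = 1 := by
      rw [pow_one, div_pow, h, div_self (pow_ne_zero 2 hq)]
    exact IsIntegral.of_pow two_pos (by rw [h1]; exact isIntegral_one)
  have hβ0 : β ≠ 0 := by
    intro h
    apply hβ 1
    rw [h]; simp [isIntegral_zero]
  have hω'2 : bil d ω' ω' = 0 := by
    -- `bil (F ω', F ω') = q² bil (ω', ω')`
    have h1 : bil d (F.mulVec ω') (F.mulVec ω') = (q : L) ^ 2 * bil d ω' ω' := by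
      rw [hbil, hbil, ← smul_eq_mul, ← dotProduct_smul, ← Matrix.smul_mulVec, ← hF.sim,
        Matrix.mul_assoc, ← Matrix.mulVec_mulVec, Matrix.dotProduct_mulVec ω' Fᵀ,
        Matrix.vecMul_transpose, Matrix.mulVec_mulVec]
    have h2 : F.mulVec ω' = ((q : L) ^ 2 / β) • ω' := by
      have := congrArg (fun x => β⁻¹ • x) hFω
      simp only [smul_smul] at this
      rw [inv_mul_cancel₀ hβ0, one_smul] at this
      rw [this]; congr 1; field_simp
    rw [h2] at h1
    have h3 : bil d (((q : L) ^ 2 / β) • ω') (((q : L) ^ 2 / β) • ω') =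
        ((q : L) ^ 2 / β) ^ 2 * bil d ω' ω' := by
      unfold bil
      rw [Finset.mul_sum]
      exact Finset.sum_congr rfl fun i _ => by simp only [Pi.smul_apply, smul_eq_mul]; ring
    rw [h3] at h1
    have h4 : (((q : L) ^ 2 / β) ^ 2 - (q : L) ^ 2) * bil d ω' ω' = 0 := by
      linear_combination h1
    refine (mul_eq_zero.1 h4).resolve_left fun h5 => hβ2 ?_
    have h6 : (q : L) ^ 2 * ((q : L) ^ 2 - β ^ 2) = 0 := by
      field_simp at h5
      linear_combination h5
    have h7 := (mul_eq_zero.1 h6).resolve_left (pow_ne_zero 2 hq)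
    linear_combination -h7
  -- a second isotropic vector
  obtain ⟨i0, hi0⟩ := Function.ne_iff.1 hy
  have hi0' : y i0 ≠ 0 := hi0
  set a : Fin (n + 1) → L := Pi.single i0 (y i0)⁻¹ with ha
  have ha1 : ∀ b : Fin (n + 1) → L, bil d a b = (y i0)⁻¹ * (d i0 * b i0) := by
    intro b
    unfold bil
    rw [Finset.sum_eq_single i0]
    · rw [ha, Pi.single_eq_same]; ring
    · intro j _ hj
      rw [ha, Pi.single_eq_of_ne hj]; ring
    · intro h; exact absurd (Finset.mem_univ _) h
  have ha2 : bil d a ω' = 1 := by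
    rw [ha1]
    have : d i0 * ω' i0 = y i0 := congrFun hyd i0
    rw [this, inv_mul_cancel₀ hi0']
  have qc : ∀ x y : Fin (n + 1) → L, bil d x y = bil d y x := by
    intro x y; unfold bil; exact Finset.sum_congr rfl fun i _ => by ring
  set ω : Fin (n + 1) → L := fun i => a i - bil d a a / 2 * ω' i with hωdef
  have hωb : ∀ b, bil d ω b = bil d a b - bil d a a / 2 * bil d ω' b := by
    intro b
    unfold bil
    rw [Finset.mul_sum, ← Finset.sum_sub_distrib]
    exact Finset.sum_congr rfl fun i _ => by simp only [hωdef, bil]; ring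
  have hωω' : bil d ω ω' = 1 := by rw [hωb, ha2, hω'2, mul_zero, sub_zero]
  have hωω : bil d ω ω = 0 := by
    rw [hωb, qc a ω, qc ω' ω, hωω', hωb, qc ω' a, ha2]
    ring
  have hω0 : ω ≠ 0 := by
    intro h
    rw [h] at hωω'
    have : bil d 0 ω' = 0 := by unfold bil; simp
    rw [this] at hωω'
    exact zero_ne_one hωω'
  intro t ht
  have hV' : ∀ g : Matrix (Fin (n + 1)) (Fin (n + 1)) L,
      gᵀ * Matrix.diagonal d * g = Matrix.diagonal d → g.det = 1 → ∀ s ∈ V, tpow g s ∈ V :=
    fun g hg hg1 s hs => stable_of_big hR hV hg hg1 hs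
  have h0 : ∀ s ∈ V, ev (fun i => d i * ω' i) s = 0 := by
    rw [hyd]
    exact ord_vanish (hV φ) hFy fun s hs hs0 h => hβ m (hI _ s hs hs0 h)
  have hdvd : Qd (fun i => (d i)⁻¹) ∣ Pol t := by
    refine dvd_of_vanish (w := ω) (by omega) (fun i => inv_ne_zero (hd i)) hω0 _ fun z hz hl => ?_
    rw [eval_Pol, ← ev_apply]
    have h1 := orth_vanish hd hωω hω'2 (by rw [hωω']; exact one_ne_zero) hV' h0
      (v := fun i => (d i)⁻¹ * z i) (by
        unfold bil
        rw [← hz]
        refine Finset.sum_congr rfl fun i _ => ?_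
        have := hd i
        field_simp) (by
        unfold bil
        intro h
        apply hl
        rw [← h]
        refine Finset.sum_congr rfl fun i _ => ?_
        have := hd i
        field_simp) t ht
    have h2 : (fun i => d i * ((d i)⁻¹ * z i)) = z := by
      funext i
      rw [← mul_assoc, mul_inv_cancel₀ (hd i), one_mul]
    rwa [h2] at h1
  exact phi_zero hdvd (fun j k a b => c.sym hS (x j) (x k) a b) fun j k => c.diag (x j) (x k)

end Pool.Agent.H833.CV
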