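import Pool.Agent.H833.CV.OrdW
import Pool.Agent.H833.EK.Kim2

/-!
# The generalised Tate conjecture in coniveau one for products of ordinary elliptic K3 surfaces
-/

set_option autoImplicit false
set_option linter.unusedSectionVars false

namespace Pool.Agent.H833.CV

open Polynomial
open Pool.Agent.H833.EK

variable {L : Type} [Field L] [CharZero L] {p q : ℕ}

section

variable {n : ℕ} {P : ℤ[X]} {α : Fin n → L}

/-- At a place above `p` some eigenvalue is a unit. -/
theorem OrdWeil.exists_unit (h : OrdWeil p q P α) {I : Ideal (integralClosure ℤ L)}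
    (hI : I.IsPrime) (hp : (p : integralClosure ℤ L) ∈ I) : ∃ i, h.int i ∉ I := by
  classical
  by_contra hcon
  push Not at hcon
  obtain ⟨m, hm⟩ : ∃ m, n = m + 1 := ⟨n - 1, by have := h.two; omega⟩
  have hdom : IsDomain (integralClosure ℤ L ⧸ I) := Ideal.Quotient.isDomain I
  set φ := Ideal.Quotient.mk I with hφ
  have h1 : (P.map (algebraMap ℤ (integralClosure ℤ L))).map φ = X ^ n := by
    rw [h.map_int, Polynomial.map_prod]
    have : ∀ i ∈ (Finset.univ : Finset (Fin n)), (X - C (h.int i)).map φ = X := by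
      intro i _
      rw [Polynomial.map_sub, Polynomial.map_X, Polynomial.map_C]
      have : φ (h.int i) = 0 := by
        rw [← RingHom.mem_ker, hφ, Ideal.mk_ker]; exact hcon i
      rw [this, C_0, sub_zero]
    rw [Finset.prod_congr rfl this, Finset.prod_const, Finset.card_univ, Fintype.card_fin]
  have h2 := congrArg (fun Q => Polynomial.coeff Q m) h1
  simp only [Polynomial.coeff_map, Polynomial.coeff_X_pow, hm] at h2
  rw [if_neg (by omega), ← RingHom.mem_ker, hφ, Ideal.mk_ker] at h2
  have h3 : ¬ (p : ℤ) ∣ P.coeff m := by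
    have := h.unit
    rwa [hm, Nat.add_sub_cancel] at this
  obtain ⟨x, y, hxy⟩ := (Nat.prime_iff_prime_int.1 h.prime).coprime_iff_not_dvd.2 h3
  apply hI.ne_top
  rw [Ideal.eq_top_iff_one]
  have h4 : (x : integralClosure ℤ L) * p + y * ((P.coeff m : ℤ) : integralClosure ℤ L) = 1 := by
    exact_mod_cast congrArg (Int.cast : ℤ → integralClosure ℤ L) hxy
  rw [← h4]
  exact I.add_mem (I.mul_mem_left _ hp) (I.mul_mem_left _ h2)

end

/-- Automorphisms of a subfield extend to an algebraically closed field. -/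
theorem exists_autL {M F : Type} [Field M] [IsAlgClosed M] [Field F] (j : F →+* M) (g : F ≃+* F) :
    ∃ σ : M ≃+* M, ∀ x, σ (j x) = j (g x) := by
  let _ : Algebra F M := j.toAlgebra
  obtain ⟨s, hs⟩ := exists_isTranscendenceBasis F M
  have _ : IsAlgClosure (Algebra.adjoin F (Set.range (Subtype.val : s → M))) M :=
    IsAlgClosed.isAlgClosure_of_transcendence_basis _ hs
  let A := hs.1.aevalEquiv
  let e : Algebra.adjoin F (Set.range (Subtype.val : s → M)) ≃+*
      Algebra.adjoin F (Set.range (Subtype.val : s → M)) :=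
    A.symm.toRingEquiv.trans ((MvPolynomial.mapEquiv s g).trans A.toRingEquiv)
  refine ⟨IsAlgClosure.equivOfEquiv M M e, fun x => ?_⟩
  have h1 : j x = algebraMap (Algebra.adjoin F (Set.range (Subtype.val : s → M))) M
      (algebraMap F _ x) := rfl
  have h2 : j (g x) = algebraMap (Algebra.adjoin F (Set.range (Subtype.val : s → M))) M
      (algebraMap F _ (g x)) := rfl
  rw [h1, IsAlgClosure.equivOfEquiv_algebraMap, h2]
  congr 1
  change A (MvPolynomial.map (g : F →+* F) (A.symm (algebraMap F _ x))) = algebraMap F _ (g x)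
  rw [AlgEquiv.commutes, MvPolynomial.algebraMap_eq, MvPolynomial.map_C,
    ← MvPolynomial.algebraMap_eq, AlgEquiv.commutes]
  rfl

theorem exists_conjL [IsAlgClosed L] {f : ℚ[X]} (hf : Irreducible f) {a b : L}
    (ha : aeval a f = 0) (hb : aeval b f = 0) : ∃ σ : L ≃+* L, σ a = b := by
  let Kb : IntermediateField ℚ L := algebraicClosure ℚ L
  have : Algebra.IsAlgebraic ℚ Kb := algebraicClosure.isAlgebraic ℚ L
  have : IsAlgClosure ℚ Kb := algebraicClosure.isAlgClosure ℚ L
  have : IsGalois ℚ Kb := inferInstance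
  have hal : ∀ {z : L}, aeval z f = 0 → z ∈ Kb := fun {z} hz =>
    mem_algebraicClosure_iff.2 ⟨f, hf.ne_zero, hz⟩
  let a' : Kb := ⟨a, hal ha⟩
  let b' : Kb := ⟨b, hal hb⟩
  have hc : ∀ {z : L} (hz : z ∈ Kb), aeval z f = 0 → aeval (⟨z, hz⟩ : Kb) f = 0 := by
    intro z hz h
    have h1 : algebraMap Kb L (aeval (⟨z, hz⟩ : Kb) f) = aeval z f := by
      rw [← Polynomial.aeval_algebraMap_apply]
      rfl
    rw [h] at h1
    exact (map_eq_zero _).1 h1
  have ha' : aeval a' f = 0 := hc _ ha
  have hb' : aeval b' f = 0 := hc _ hb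
  have hm : aeval b' (minpoly ℚ a') = 0 := by
    have h1 : minpoly ℚ a' ∣ f := minpoly.dvd ℚ a' ha'
    have h2 : Associated (minpoly ℚ a') f :=
      (minpoly.irreducible (Algebra.IsAlgebraic.isAlgebraic a').isIntegral).associated_of_dvd hf h1
    obtain ⟨u, hu⟩ := h2.symm
    rw [← hu, map_mul, hb', zero_mul]
  obtain ⟨g, hg⟩ := minpoly.exists_algEquiv_of_root (Algebra.IsAlgebraic.isAlgebraic a') hm
  obtain ⟨τ, hτ⟩ := exists_autL (algebraMap Kb L) (g : Kb ≃+* Kb)
  refine ⟨τ.symm, ?_⟩
  have h3 := hτ b'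
  change τ b = ((g b' : Kb) : L) at h3
  rw [hg] at h3
  rw [RingEquiv.symm_apply_eq, h3]

/-- An integer in a prime ideal above `p` is divisible by `p`. -/
theorem dvd_of_mem (hp : p.Prime) {I : Ideal (integralClosure ℤ L)} (hI : I.IsPrime)
    (hpI : (p : integralClosure ℤ L) ∈ I) {z : ℤ} (hz : (z : integralClosure ℤ L) ∈ I) :
    (p : ℤ) ∣ z := by
  by_contra h3
  obtain ⟨x, y, hxy⟩ := (Nat.prime_iff_prime_int.1 hp).coprime_iff_not_dvd.2 h3
  apply hI.ne_top
  rw [Ideal.eq_top_iff_one]
  have h4 : (x : integralClosure ℤ L) * p + y * (z : integralClosure ℤ L) = 1 := by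
    exact_mod_cast congrArg (Int.cast : ℤ → integralClosure ℤ L) hxy
  rw [← h4]
  exact I.add_mem (I.mul_mem_left _ hpI) (I.mul_mem_left _ hz)

theorem OrdWeil.no_factor [IsAlgClosed L] {n : ℕ} {P : ℤ[X]} {α : Fin n → L}
    (h : OrdWeil p q P α) {I : Ideal (integralClosure ℤ L)} (hI : I.IsPrime)
    (hpI : (p : integralClosure ℤ L) ∈ I) {g : ℤ[X]} (hg : g.Monic) (hgP : g ∣ P)
    (hg0 : g.natDegree ≠ 0)
    (hgI : ∃ k, (g.map (algebraMap ℤ (integralClosure ℤ L))).map (Ideal.Quotient.mk I) ∣ X ^ k) :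
    False := by
  have hdom : IsDomain (integralClosure ℤ L ⧸ I) := Ideal.Quotient.isDomain I
  set φ := Ideal.Quotient.mk I with hφ
  obtain ⟨k, hk⟩ := hgI
  set g' := (g.map (algebraMap ℤ (integralClosure ℤ L))).map φ with hg'
  have hm' : g'.Monic := (hg.map _).map _
  have h1 : g' = X ^ g.natDegree := by
    obtain ⟨d, -, hd⟩ := (dvd_prime_pow Polynomial.prime_X k).1 hk
    have h2 : g' = X ^ d := Polynomial.eq_of_monic_of_associated hm' (monic_X_pow d) hd
    have h3 : g'.natDegree = g.natDegree := by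
      rw [hg', Polynomial.map_map, hg.natDegree_map]
    rw [h2] at h3 ⊢
    rw [natDegree_X_pow] at h3
    rw [h3]
  have h2 : ∀ j, j < g.natDegree → (p : ℤ) ∣ g.coeff j := by
    intro j hj
    have h3 := congrArg (fun Q => Polynomial.coeff Q j) h1
    simp only [hg', Polynomial.coeff_map, Polynomial.coeff_X_pow] at h3
    rw [if_neg (by omega), ← RingHom.mem_ker, hφ, Ideal.mk_ker] at h3
    exact dvd_of_mem h.prime hI hpI h3
  -- a root of `g`
  obtain ⟨β, hβ⟩ := IsAlgClosed.exists_root (g.map (algebraMap ℤ L)) (by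
    rw [Polynomial.degree_map_eq_of_injective (algebraMap ℤ L).injective_int]
    intro h3
    exact hg0 (Polynomial.natDegree_eq_of_degree_eq_some h3))
  have hβ' : aeval β g = 0 := by
    rw [Polynomial.aeval_def, ← Polynomial.eval_map]; exact hβ
  obtain ⟨j, hj⟩ : ∃ j, β = α j := by
    have h3 : (P.map (algebraMap ℤ L)).eval β = 0 := by
      obtain ⟨w, hw⟩ := hgP
      rw [hw, Polynomial.map_mul, Polynomial.eval_mul, hβ, zero_mul]
    rw [h.roots, Polynomial.eval_prod, Finset.prod_eq_zero_iff] at h3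
    obtain ⟨j, -, hj⟩ := h3
    exact ⟨j, by simpa [sub_eq_zero] using hj⟩
  obtain ⟨J, hJ, hpJ, hjJ⟩ := h.exists_prime j
  apply hjJ
  refine hJ.mem_of_pow_mem g.natDegree ?_
  have h3 : (h.int j) ^ g.natDegree = -∑ i ∈ Finset.range g.natDegree,
      (g.coeff i : integralClosure ℤ L) * h.int j ^ i := by
    apply Subtype.ext
    have h4 := hβ'
    rw [Polynomial.aeval_eq_sum_range, Finset.sum_range_succ, hg.coeff_natDegree, one_smul, hj] at h4
    have h5 : ((-∑ i ∈ Finset.range g.natDegree,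
        (g.coeff i : integralClosure ℤ L) * h.int j ^ i : integralClosure ℤ L) : L) =
        -∑ i ∈ Finset.range g.natDegree, g.coeff i • α j ^ i := by
      push_cast
      congr 1
      refine Finset.sum_congr rfl fun i _ => ?_
      rw [zsmul_eq_mul]
      rfl
    rw [h5]
    change α j ^ g.natDegree = _
    linear_combination h4
  rw [h3]
  refine J.neg_mem (J.sum_mem fun i hi => J.mul_mem_right _ ?_)
  obtain ⟨w, hw⟩ := h2 i (Finset.mem_range.1 hi)
  rw [hw]
  push_cast
  exact J.mul_mem_right _ hpJ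

/-- The characteristic polynomial is irreducible. -/
theorem OrdWeil.irreducible [IsAlgClosed L] {n : ℕ} {P : ℤ[X]} {α : Fin n → L}
    (h : OrdWeil p q P α) : Irreducible P := by
  classical
  have h2 := h.two
  rw [h.monic.irreducible_iff_natDegree]
  refine ⟨fun h1 => ?_, fun f g hf hg hfg => ?_⟩
  · have := h.natDegree_eq
    rw [h1, natDegree_one] at this
    omega
  by_contra hcon
  push Not at hcon
  obtain ⟨hf0, hg0⟩ := hcon
  obtain ⟨I, hI, hp, hi⟩ := h.exists_prime ⟨0, by omega⟩
  set i₀ : Fin n := ⟨0, by omega⟩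
  have hdom : IsDomain (integralClosure ℤ L ⧸ I) := Ideal.Quotient.isDomain I
  set φ := Ideal.Quotient.mk I with hφ
  have hprod : (f.map (algebraMap ℤ (integralClosure ℤ L))).map φ *
      (g.map (algebraMap ℤ (integralClosure ℤ L))).map φ =
      (X - C (φ (h.int i₀))) * X ^ (n - 1) := by
    rw [← Polynomial.map_mul, ← Polynomial.map_mul, hfg, h.map_int, Polynomial.map_prod,
      ← Finset.mul_prod_erase _ _ (Finset.mem_univ i₀)]
    congr 1
    · rw [Polynomial.map_sub, Polynomial.map_X, Polynomial.map_C]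
    · have : ∀ l ∈ Finset.univ.erase i₀, (X - C (h.int l)).map φ = X := by
        intro l hl
        rw [Polynomial.map_sub, Polynomial.map_X, Polynomial.map_C]
        have : φ (h.int l) = 0 := by
          rw [← RingHom.mem_ker, hφ, Ideal.mk_ker]
          exact h.unique_unit hI hp (Finset.ne_of_mem_erase hl).symm hi
        rw [this, C_0, sub_zero]
      rw [Finset.prod_congr rfl this, Finset.prod_const, Finset.card_erase_of_mem
        (Finset.mem_univ _), Finset.card_univ, Fintype.card_fin]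
  have hpr : Prime (X - C (φ (h.int i₀))) := Polynomial.prime_X_sub_C _
  rcases hpr.dvd_or_dvd (Dvd.intro _ hprod.symm) with ⟨w, hw⟩ | ⟨w, hw⟩
  · refine h.no_factor hI hp hg ⟨f, by rw [← hfg, mul_comm]⟩ hg0 ⟨n - 1, w, ?_⟩
    apply mul_left_cancel₀ hpr.ne_zero
    rw [← hprod, hw]; ring
  · refine h.no_factor hI hp hf ⟨g, hfg.symm⟩ hf0 ⟨n - 1, w, ?_⟩
    apply mul_left_cancel₀ hpr.ne_zero
    rw [← hprod, hw]; ring

/-- The eigenvalues are conjugate. -/
theorem OrdWeil.conj [IsAlgClosed L] {n : ℕ} {P : ℤ[X]} {α : Fin n → L} (h : OrdWeil p q P α)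
    (i j : Fin n) : ∃ σ : L ≃+* L, σ (α i) = α j := by
  have h1 : Irreducible (P.map (algebraMap ℤ ℚ)) :=
    (h.monic.irreducible_iff_irreducible_map_fraction_map).1 h.irreducible
  refine exists_conjL h1 ?_ ?_
  · rw [Polynomial.aeval_map_algebraMap]; exact h.root i
  · rw [Polynomial.aeval_map_algebraMap]; exact h.root j

variable {K : Type} [Field K] [CharZero K] [IsAlgClosed K] {A : Type} [CommRing A] [Algebra L A]

/-- The products of the pull backs of classes under two points are symmetric. -/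
theorem FClasses.sym {S : Geo K} {n : ℕ} {α : Fin n → L} (hS : EllK3 S) (c : FClasses S α A)
    (x x' : S.Pt K) (a b : Fin n) : c.cl x a * c.cl x' b = c.cl x' a * c.cl x b := by
  obtain ⟨-, o, ho⟩ := hS.sw
  obtain ⟨p, hp⟩ := c.cst
  let _ : Module ℚ A := Module.compHom A (algebraMap ℚ L)
  let Φ : ((Fin 2 → S.Pt K) →₀ ℚ) →ₗ[ℚ] A :=
    Finsupp.linearCombination ℚ fun x => c.cl (x 0) a * c.cl (x 1) b
  have hΦ : S.Rat 2 ≤ LinearMap.ker Φ := by
    intro z hz
    rw [LinearMap.mem_ker, Finsupp.linearCombination_apply, ← c.rat z hz a b]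
    refine Finset.sum_congr rfl fun x _ => ?_
    change (algebraMap ℚ L (z x)) • (c.cl (x 0) a * c.cl (x 1) b) = _
    rw [eq_ratCast]
  have key : ∀ x x' : S.Pt K,
      c.cl x a * c.cl x' b - c.cl x a * c.cl o b - c.cl o a * c.cl x' b -
        (c.cl x' a * c.cl x b - c.cl x' a * c.cl o b - c.cl o a * c.cl x b) = 0 := by
    intro x x'
    have h1 := ho 2 0 1 (by decide) (fun _ => o) x x'
    have h2 := congrArg ((S.Rat 2).liftQ Φ hΦ) h1
    have h3 : ∀ y y' : S.Pt K, (S.Rat 2).liftQ Φ hΦ (S.cl₂ 0 1 (fun _ => o) y y') =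
        c.cl y a * c.cl y' b := by
      intro y y'
      change (S.Rat 2).liftQ Φ hΦ ((S.Rat 2).mkQ (Finsupp.single _ 1)) = _
      rw [Submodule.mkQ_apply, Submodule.liftQ_apply, Finsupp.linearCombination_single, one_smul]
      rfl
    unfold Geo.Wd at h2
    simpa only [map_sub, map_zero, h3] using h2
  have h1 : ∀ x : S.Pt K, c.cl x a * c.cl o b = c.cl o a * c.cl x b := by
    intro x
    have := key x p
    rw [hp a, hp b] at this
    simp only [mul_zero, zero_mul, sub_zero, zero_sub] at this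
    linear_combination (-1 : A) * this
  linear_combination key x x' + h1 x - h1 x'

/-- The products of the classes of different eigenvectors of Frobenius vanish. -/
theorem FClasses.mix {S : Geo K} {n : ℕ} {α : Fin n → L} (hS : EllK3 S) (c : FClasses S α A)
    (x y : S.Pt K) {a b : Fin n} (h : α a ≠ α b) : c.cl x a * c.cl y b = 0 := by
  obtain ⟨x', hx'⟩ := c.frob x
  have h1 := c.sym hS x' y a b
  rw [hx', hx', smul_mul_assoc, mul_smul_comm, c.sym hS y x a b, ← sub_eq_zero, ← sub_smul] at h1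
  exact (smul_eq_zero_iff_right (sub_ne_zero.2 h)).1 h1

end Pool.Agent.H833.CV
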