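import Pool.Agent.H833.CV.DefO

/-!
# The eigenvalues of Frobenius of an ordinary K3 surface
-/

set_option autoImplicit false
set_option linter.unusedSectionVars false

namespace Pool.Agent.H833.CV

open Polynomial

variable {L : Type} [Field L] [CharZero L] {p q n : ℕ} {P : ℤ[X]} {α : Fin n → L}

namespace OrdWeil

variable (h : OrdWeil p q P α)

include h

theorem natDegree_eq : P.natDegree = n := by
  have h1 := congrArg Polynomial.natDegree h.roots
  rw [Polynomial.natDegree_map_eq_of_injective (algebraMap ℤ L).injective_int,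
    Polynomial.natDegree_prod_of_monic _ _ fun i _ => monic_X_sub_C _] at h1
  rw [h1]; simp

theorem monic : P.Monic := by
  have h1 : (P.map (algebraMap ℤ L)).Monic := by
    rw [h.roots]; exact monic_prod_of_monic _ _ fun i _ => monic_X_sub_C _
  exact Polynomial.monic_of_injective (algebraMap ℤ L).injective_int h1

theorem root (i : Fin n) : aeval (α i) P = 0 := by
  rw [← Polynomial.aeval_map_algebraMap L, h.roots, map_prod]
  exact Finset.prod_eq_zero (Finset.mem_univ i) (by simp)

theorem integral (i : Fin n) : IsIntegral ℤ (α i) :=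
  ⟨P, h.monic, by rw [← Polynomial.aeval_def]; exact h.root i⟩

theorem q_ne : (q : L) ≠ 0 := by
  obtain ⟨f, -, hf⟩ := h.pow
  rw [hf]
  push_cast
  exact pow_ne_zero _ (Nat.cast_ne_zero.2 h.prime.ne_zero)

/-- If the slopes of `α i` are positive at all places then they are at least one. -/
theorem slope_one (i : Fin n) {k : ℕ} (hk : IsIntegral ℤ (α i ^ k / q)) :
    IsIntegral ℤ (α i / q) := by
  classical
  obtain ⟨m, rfl⟩ : ∃ m, n = m + 2 := ⟨n - 2, by have := h.two; omega⟩
  have hq := h.q_ne
  set β : L := α i / q with hβ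
  have hα : α i = q * β := by rw [hβ]; field_simp
  choose b hb using fun j : Fin (m + 2) => h.slopes j j.2
  set c : ℤ := P.coeff (m + 1) with hc
  have hbc : b ⟨m + 1, by omega⟩ = c := by
    have := hb ⟨m + 1, by omega⟩
    simp only [show m + 2 - 1 - (m + 1) = 0 by omega, pow_zero, one_mul] at this
    exact this.symm
  -- the equation for `β`
  have h1 : α i * β ^ (m + 1) + ∑ j : Fin (m + 2), (b j : L) * β ^ (j : ℕ) = 0 := by
    have h2 := h.root i
    rw [Polynomial.aeval_eq_sum_range, h.natDegree_eq, Finset.sum_range_succ] at h2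
    have h3 : P.coeff (m + 2) = 1 := by
      have := h.monic.coeff_natDegree
      rwa [h.natDegree_eq] at this
    rw [h3, one_smul, ← Fin.sum_univ_eq_sum_range (fun j => P.coeff j • α i ^ j) (m + 2)] at h2
    have h4 : ∑ j : Fin (m + 2), P.coeff (j : ℕ) • α i ^ (j : ℕ) =
        (q : L) ^ (m + 1) * ∑ j : Fin (m + 2), (b j : L) * β ^ (j : ℕ) := by
      rw [Finset.mul_sum]
      refine Finset.sum_congr rfl fun j _ => ?_
      have h5 : (q : L) ^ (m + 1) = (q : L) ^ (m + 1 - (j : ℕ)) * (q : L) ^ (j : ℕ) := by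
        rw [← pow_add]; congr 1; have := j.2; omega
      rw [hb j, hα, zsmul_eq_mul, mul_pow, h5]
      push_cast
      ring
    have h6 : α i ^ (m + 2) = (q : L) ^ (m + 1) * (α i * β ^ (m + 1)) := by
      rw [hα]; ring
    rw [h4, h6, ← mul_add] at h2
    have h7 := (mul_eq_zero.1 h2).resolve_left (pow_ne_zero _ hq)
    linear_combination h7
  have h2 : (α i + c) * β ^ (m + 1) = -∑ j : Fin (m + 1), (b j.castSucc : L) * β ^ (j : ℕ) := by
    rw [Fin.sum_univ_castSucc] at h1
    have h3 : (b (Fin.last (m + 1)) : L) = c := by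
      have : Fin.last (m + 1) = ⟨m + 1, by omega⟩ := rfl
      rw [this, hbc]
    rw [h3] at h1
    simp only [Fin.val_last, Fin.val_castSucc] at h1
    linear_combination h1
  -- the ideal of `α + c` and `q`
  have hcp : IsCoprime (c ^ k) (q : ℤ) := by
    obtain ⟨f, -, hf⟩ := h.pow
    rw [hf]
    push_cast
    refine IsCoprime.pow_left (IsCoprime.pow_right ?_)
    exact ((Nat.prime_iff_prime_int.1 h.prime).coprime_iff_not_dvd.2 h.unit).symm
  obtain ⟨x, y, hxy⟩ := hcp
  set O := integralClosure ℤ L with hO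
  let αO : O := ⟨α i, h.integral i⟩
  let γO : O := ⟨α i ^ k / q, hk⟩
  have hγ : (q : O) * γO = αO ^ k := by
    apply Subtype.ext
    change (q : L) * (α i ^ k / q) = α i ^ k
    field_simp
  obtain ⟨s, hs⟩ := sub_dvd_pow_sub_pow (c : O) (-αO) k
  obtain ⟨u, v, huv⟩ : ∃ u v : O, u * (αO + c) + v * q = 1 := by
    refine ⟨x * s, x * (-1) ^ k * γO + y, ?_⟩
    have h3 : (x : O) * (c : O) ^ k + y * q = 1 := by exact_mod_cast congrArg (Int.cast : ℤ → O) hxy
    have h4 : (-αO) ^ k = (-1) ^ k * (q * γO) := by rw [hγ, neg_pow]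
    rw [h4] at hs
    linear_combination h3 - (x : O) * hs
  have huv' : (u : L) * (α i + c) + v * q = 1 := by
    have := congrArg (Subtype.val : O → L) huv
    exact this
  -- the integral equation
  have hint : IsIntegral O β := by
    let R : O[X] := -C (v * αO) * X ^ m + ∑ j : Fin (m + 1), C (u * (b j.castSucc : O)) * X ^ (j : ℕ)
    have hR : R.degree < ((m + 1 : ℕ) : WithBot ℕ) := by
      refine lt_of_le_of_lt (degree_add_le _ _) (max_lt ?_ ?_)
      · rw [← C_neg]
        exact lt_of_le_of_lt (degree_C_mul_X_pow_le _ _) (by exact_mod_cast Nat.lt_succ_self m)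
      · refine lt_of_le_of_lt (degree_sum_le _ _) ?_
        rw [Finset.sup_lt_iff (by exact WithBot.bot_lt_coe _)]
        intro j _
        exact lt_of_le_of_lt (degree_C_mul_X_pow_le _ _) (by exact_mod_cast j.2)
    refine ⟨X ^ (m + 1) + R, monic_X_pow_add hR, ?_⟩
    rw [← Polynomial.aeval_def, map_add, map_pow, aeval_X, map_add, map_mul, map_neg, aeval_C,
      map_pow, aeval_X, map_sum]
    have h3 : ∀ j : Fin (m + 1), aeval β (C (u * (b j.castSucc : O)) * X ^ (j : ℕ)) =
        (u : L) * ((b j.castSucc : L) * β ^ (j : ℕ)) := by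
      intro j
      rw [map_mul, aeval_C, map_pow, aeval_X]
      have : algebraMap O L (u * (b j.castSucc : O)) = (u : L) * (b j.castSucc : L) := by
        rw [map_mul, map_intCast]; rfl
      rw [this]; ring
    rw [Finset.sum_congr rfl fun j _ => h3 j, ← Finset.mul_sum]
    have h4 : algebraMap O L (v * αO) = (v : L) * α i := rfl
    rw [h4]
    have h5 : (u : L) * ∑ j : Fin (m + 1), (b j.castSucc : L) * β ^ (j : ℕ) =
        -(u * ((α i + c) * β ^ (m + 1))) := by rw [h2]; ring
    rw [h5, hα] 
    rw [hα] at huv'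
    linear_combination -(β ^ (m + 1)) * huv'
  exact isIntegral_trans β hint

/-- Kronecker's theorem. -/
theorem not_slope_one (i : Fin n) : ¬ IsIntegral ℤ (α i / q) := by
  intro hi
  have hq := h.q_ne (L := L)
  have hq0 : (q : ℝ) ≠ 0 := by
    intro h0
    apply hq
    have : q = 0 := by exact_mod_cast h0
    rw [this]; simp
  set K₀ : IntermediateField ℚ L := IntermediateField.adjoin ℚ {α i} with hK₀
  have hαi : IsIntegral ℚ (α i) := (h.integral i).tower_top
  have hfin : FiniteDimensional ℚ K₀ := IntermediateField.adjoin.finiteDimensional hαi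
  have hNF : NumberField K₀ := @NumberField.mk K₀ _ inferInstance hfin
  let a₀ : K₀ := ⟨α i, IntermediateField.mem_adjoin_simple_self ℚ (α i)⟩
  have h1 : IsIntegral ℤ (a₀ / q) := by
    have h2 : algebraMap K₀ L (a₀ / q) = α i / q := by
      rw [map_div₀, map_natCast]; rfl
    rw [← h2] at hi
    exact (isIntegral_algebraMap_iff (algebraMap K₀ L).injective).1 hi
  obtain ⟨N, hN, h2⟩ := NumberField.Embeddings.pow_eq_one_of_norm_eq_one K₀ ℂ h1 fun φ => by
    have h3 : ‖φ a₀‖ = q := by
      apply h.weil
      rw [Polynomial.IsRoot, Polynomial.eval_map, ← Polynomial.aeval_def]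
      have h4 : aeval a₀ P = 0 := by
        apply (algebraMap K₀ L).injective
        rw [← Polynomial.aeval_algebraMap_apply, map_zero]
        exact h.root i
      have h5 : aeval (φ a₀) P = φ (aeval a₀ P) := by
        rw [Polynomial.aeval_def, Polynomial.aeval_def, Polynomial.hom_eval₂]
        congr 1
        exact RingHom.ext_int _ _
      rw [h5, h4, map_zero]
    rw [map_div₀, map_natCast, norm_div, h3, Complex.norm_natCast, div_self hq0]
  apply h.trans i N hN
  have h3 := congrArg (algebraMap K₀ L) h2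
  rw [map_pow, map_div₀, map_natCast, map_one] at h3
  change (α i / q) ^ N = 1 at h3
  rw [div_pow, div_eq_one_iff_eq (pow_ne_zero _ hq)] at h3
  exact h3

theorem not_int (i : Fin n) (k : ℕ) : ¬ IsIntegral ℤ (α i ^ k / q) :=
  fun hk => h.not_slope_one i (h.slope_one i hk)

/-- The eigenvalue `α i` in the ring of the algebraic integers of `L`. -/
def int (i : Fin n) : integralClosure ℤ L := ⟨α i, h.integral i⟩

theorem map_int : P.map (algebraMap ℤ (integralClosure ℤ L)) = ∏ i, (X - C (h.int i)) := by
  apply Polynomial.map_injective (algebraMap (integralClosure ℤ L) L)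
    (FaithfulSMul.algebraMap_injective _ _)
  rw [Polynomial.map_map, Polynomial.map_prod, ← IsScalarTower.algebraMap_eq, h.roots]
  refine Finset.prod_congr rfl fun i _ => ?_
  rw [Polynomial.map_sub, Polynomial.map_X, Polynomial.map_C]
  rfl

/-- At a place above `p` at most one eigenvalue is a unit. -/
theorem unique_unit {I : Ideal (integralClosure ℤ L)} (hI : I.IsPrime)
    (hp : (p : integralClosure ℤ L) ∈ I) {i j : Fin n} (hij : i ≠ j) (hi : h.int i ∉ I) :
    h.int j ∈ I := by
  classical
  by_contra hj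
  obtain ⟨m, hm⟩ : ∃ m, n = m + 1 := ⟨n - 1, by have := h.two; omega⟩
  set φ := Ideal.Quotient.mk I with hφ
  have hdom : IsDomain (integralClosure ℤ L ⧸ I) := Ideal.Quotient.isDomain I
  set c := φ ((P.coeff m : ℤ) : integralClosure ℤ L) with hc
  have h1 : (P.map (algebraMap ℤ (integralClosure ℤ L))).map φ =
      X ^ m * (X + C c) := by
    ext k
    rw [Polynomial.coeff_map, Polynomial.coeff_map, mul_add, ← pow_succ, Polynomial.coeff_add,
      Polynomial.coeff_X_pow, mul_comm (X ^ m) (C c), Polynomial.coeff_C_mul_X_pow]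
    rcases lt_trichotomy k m with hk | hk | hk
    · rw [if_neg (by omega), if_neg (by omega), add_zero, ← RingHom.mem_ker, hφ,
        Ideal.mk_ker]
      have h2 := h.slopes k (by omega)
      have h3 : (p : ℤ) ∣ P.coeff k := by
        refine dvd_trans ?_ h2
        obtain ⟨f, hf, hq⟩ := h.pow
        rw [hq]
        push_cast
        rw [← pow_mul]
        exact dvd_pow_self _ (Nat.mul_ne_zero hf.ne' (by omega))
      obtain ⟨w, hw⟩ := h3
      rw [hw, map_mul]
      have : algebraMap ℤ (integralClosure ℤ L) (p : ℤ) = (p : integralClosure ℤ L) := by simp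
      rw [this]
      exact I.mul_mem_right _ hp
    · subst hk
      rw [if_neg (by omega), if_pos rfl, zero_add, hc]
      rfl
    · rcases Nat.lt_or_ge k (m + 2) with hk2 | hk2
      · have hk3 : k = m + 1 := by omega
        subst hk3
        rw [if_pos rfl, if_neg (by omega), add_zero]
        have := h.monic.coeff_natDegree
        rw [h.natDegree_eq, hm] at this
        rw [this, map_one, map_one]
      · rw [if_neg (by omega), if_neg (by omega), add_zero,
          Polynomial.coeff_eq_zero_of_natDegree_lt (by rw [h.natDegree_eq]; omega), map_zero,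
          map_zero]
  have h2 : ∏ l, (X - C (φ (h.int l))) = X ^ m * (X + C c) := by
    rw [← h1, h.map_int, Polynomial.map_prod]
    refine Finset.prod_congr rfl fun l _ => ?_
    rw [Polynomial.map_sub, Polynomial.map_X, Polynomial.map_C]
  have hne : ∀ l, h.int l ∉ I → φ (h.int l) = -c ∧ c ≠ 0 := by
    intro l hl
    have h3 := congrArg (Polynomial.eval (φ (h.int l))) h2
    rw [Polynomial.eval_prod, Finset.prod_eq_zero (Finset.mem_univ l) (by simp)] at h3
    simp only [eval_mul, eval_pow, eval_X, eval_add, eval_C] at h3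
    have h4 : φ (h.int l) ≠ 0 := by
      rw [Ne, ← RingHom.mem_ker, hφ, Ideal.mk_ker]; exact hl
    have h5 := (mul_eq_zero.1 h3.symm).resolve_left (pow_ne_zero _ h4)
    have h6 : φ (h.int l) = -c := by linear_combination h5
    refine ⟨h6, fun h7 => h4 ?_⟩
    rw [h6, h7, neg_zero]
  obtain ⟨h3, hc0⟩ := hne i hi
  obtain ⟨h4, -⟩ := hne j hj
  rw [← Finset.mul_prod_erase _ _ (Finset.mem_univ i),
    ← Finset.mul_prod_erase _ _ (Finset.mem_erase.2 ⟨hij.symm, Finset.mem_univ j⟩), h3, h4] at h2
  have h5 : (X - C (-c) : (integralClosure ℤ L ⧸ I)[X]) ≠ 0 := X_sub_C_ne_zero _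
  have h6 : (X - C (-c)) * ∏ l ∈ (Finset.univ.erase i).erase j, (X - C (φ (h.int l))) = X ^ m := by
    apply mul_left_cancel₀ h5
    rw [h2, C_neg, sub_neg_eq_add]
    ring
  have h7 := congrArg (Polynomial.eval (-c)) h6
  simp only [eval_mul, eval_sub, eval_X, eval_C, sub_self, zero_mul, eval_pow] at h7
  exact pow_ne_zero m (neg_ne_zero.2 hc0) h7.symm

/-- For every eigenvalue there is a place above `p` at which it is a unit. -/
theorem exists_prime (i : Fin n) : ∃ I : Ideal (integralClosure ℤ L), I.IsPrime ∧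
    (p : integralClosure ℤ L) ∈ I ∧ h.int i ∉ I := by
  by_contra hcon
  push Not at hcon
  have h1 : h.int i ∈ (Ideal.span {(p : integralClosure ℤ L)}).radical := by
    rw [Ideal.radical_eq_sInf, Ideal.mem_sInf]
    intro J hJ
    exact hcon J hJ.2 (hJ.1 (Ideal.mem_span_singleton_self _))
  obtain ⟨k, hk⟩ := h1
  obtain ⟨w, hw⟩ := Ideal.mem_span_singleton'.1 hk
  obtain ⟨f, -, hf⟩ := h.pow
  apply h.not_int i (k * f)
  have h2 : α i ^ k = (w : L) * p := by
    have := congrArg (Subtype.val : integralClosure ℤ L → L) hw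
    exact this.symm
  have h3 : α i ^ (k * f) / q = (w : L) ^ f := by
    rw [pow_mul, h2, mul_pow, hf]
    push_cast
    have : (p : L) ^ f ≠ 0 := pow_ne_zero _ (Nat.cast_ne_zero.2 h.prime.ne_zero)
    field_simp
  rw [h3]
  exact IsIntegral.pow w.2 f

/-- The eigenvalues are different. -/
theorem injective : Function.Injective α := by
  intro i j hij
  by_contra hne
  obtain ⟨I, hI, hp, hi⟩ := h.exists_prime i
  have h1 := h.unique_unit hI hp hne hi
  apply hi
  have : h.int i = h.int j := Subtype.ext hij
  rwa [this]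

end OrdWeil

end Pool.Agent.H833.CV
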