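import Pool.Agent.H833.CV.OrdMain

/-!
# The generalised Tate conjecture in coniveau one for products with ordinary elliptic K3 surfaces
-/

set_option autoImplicit false
set_option linter.unusedSectionVars false

namespace Pool.Agent.H833.CV

open Polynomial
open Pool.Agent.H833.EK

variable {L : Type} [Field L] [CharZero L] [IsAlgClosed L] {p q : ℕ}
variable {K : Type} [Field K] [CharZero K] [IsAlgClosed K] {A : Type} [CommRing A] [Algebra L A]
variable {r m : ℕ} {n a : Fin r → ℕ} {S : Fin r → Geo K} {P : Fin r → ℤ[X]}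
  {α : ∀ s, Fin (n s) → L} {H : Type} [AddCommGroup H] [Module L H] {Φ : H →ₗ[L] H}

theorem LinDisj.trans (hα : ∀ s, OrdWeil p q (P s) (α s)) (hd : LinDisj α Φ)
    (g g' : ∀ s, Fin (n s)) : ∃ σ : L ≃+* L, (∀ s, σ (α s (g s)) = α s (g' s)) ∧
      ∀ η, Module.End.HasEigenvalue Φ η → σ η = η := by
  rcases hd with ⟨rfl, h1⟩ | hd
  · obtain ⟨σ, hσ⟩ := (hα 0).conj (g 0) (g' 0)
    refine ⟨σ, fun s => ?_, fun η hη => ?_⟩
    · rw [Subsingleton.elim s 0]; exact hσ
    · obtain ⟨x, rfl⟩ := h1 η hη
      exact map_ratCast σ x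
  · exact hd g g'

/-- A product of pull backs of classes which is not zero contains only classes `1` and classes of
one eigenvector for each surface. -/
theorem pure_index (hS : ∀ s, EllK3 (S s)) (hα : ∀ s, OrdWeil p q (P s) (α s))
    (c : ∀ s, FClasses (S s) (α s) A) (τ : Fin m → Fin r) (x : ∀ l, (S (τ l)).Pt K)
    {I : ∀ l, BasO (n (τ l)) (a (τ l))} (hprod : ∏ l, (c (τ l)).clB (x l) (I l) ≠ 0) :
    ∃ g : ∀ s, Fin (n s), ∀ l, I l = none ∨ I l = some (Sum.inl (g (τ l))) := by
  classical
  have hg : ∀ s, ∃ i : Fin (n s), ∀ l, ∀ h : τ l = s,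
      I l = none ∨ I l = some (Sum.inl (h ▸ i)) := by
    intro s
    by_cases hex : ∃ l, ∃ h : τ l = s, ∃ i : Fin (n (τ l)), I l = some (Sum.inl i)
    · obtain ⟨l₀, h₀, i, hi⟩ := hex
      subst h₀
      refine ⟨i, fun l h => ?_⟩
      rcases hIl : I l with _ | j | j
      · exact Or.inl rfl
      · right
        by_contra hcon
        have hll : l₀ ≠ l := by
          rintro rfl
          rw [hi] at hIl
          injection hIl with h1
          injection h1 with h2
          subst h2
          exact hcon rfl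
        apply hprod
        rw [← Finset.mul_prod_erase _ _ (Finset.mem_univ l₀),
          ← Finset.mul_prod_erase _ _ (Finset.mem_erase.2 ⟨hll.symm, Finset.mem_univ l⟩),
          ← mul_assoc]
        have h2 : (c (τ l₀)).clB (x l₀) (I l₀) * (c (τ l)).clB (x l) (I l) = 0 := by
          rw [hi, hIl]
          simp only [FClasses.clB]
          have h3 : ∀ (s : Fin r) (hs : s = τ l₀) (y : (S s).Pt K) (j : Fin (n s)),
              (hs ▸ i) ≠ j → (c (τ l₀)).cl (x l₀) i * (c s).cl y j = 0 := by
            rintro s rfl y j hij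
            exact (c (τ l₀)).mix (hS _) (x l₀) y fun h => hij ((hα _).injective h)
          refine h3 (τ l) h (x l) j fun h4 => hcon ?_
          rw [← h4]
        rw [h2, zero_mul]
      · exfalso
        apply hprod
        refine Finset.prod_eq_zero (Finset.mem_univ l) ?_
        rw [hIl]
        rfl
    · push Not at hex
      refine ⟨⟨0, by have := (hα s).two; omega⟩, fun l h => ?_⟩
      rcases hIl : I l with _ | j | j
      · exact Or.inl rfl
      · exact absurd hIl (hex l h j)
      · exfalso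
        apply hprod
        refine Finset.prod_eq_zero (Finset.mem_univ l) ?_
        rw [hIl]
        rfl
  choose g hg using hg
  exact ⟨g, fun l => hg (τ l) l rfl⟩

/-- the eigenvalue of a pure product of classes, as an algebraic integer -/
noncomputable def eInt (hα : ∀ s, OrdWeil p q (P s) (α s)) (τ : Fin m → Fin r)
    (I : ∀ l, BasO (n (τ l)) (a (τ l))) (g : ∀ s, Fin (n s)) : integralClosure ℤ L :=
  ∏ l, (I l).elim 1 fun _ => (hα (τ l)).int (g (τ l))

theorem eInt_eq (hα : ∀ s, OrdWeil p q (P s) (α s)) (γ : ∀ s, Fin (a s) → L) (τ : Fin m → Fin r)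
    {I : ∀ l, BasO (n (τ l)) (a (τ l))} {g : ∀ s, Fin (n s)}
    (hg : ∀ l, I l = none ∨ I l = some (Sum.inl (g (τ l)))) :
    (eInt hα τ I g : L) = ∏ l, eigB (α (τ l)) (γ (τ l)) (I l) := by
  unfold eInt
  rw [show ((∏ l, (I l).elim 1 fun _ => (hα (τ l)).int (g (τ l)) : integralClosure ℤ L) : L) =
    ∏ l, (((I l).elim 1 fun _ => (hα (τ l)).int (g (τ l)) : integralClosure ℤ L) : L) from
    map_prod (integralClosure ℤ L).val _ _]
  refine Finset.prod_congr rfl fun l _ => ?_
  rcases hg l with h | h <;> rw [h] <;> rfl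

theorem eInt_map (hα : ∀ s, OrdWeil p q (P s) (α s)) (τ : Fin m → Fin r)
    (I : ∀ l, BasO (n (τ l)) (a (τ l))) {g g' : ∀ s, Fin (n s)} {σ : L ≃+* L}
    (hσ : ∀ s, σ (α s (g s)) = α s (g' s)) :
    σ (eInt hα τ I g : L) = (eInt hα τ I g' : L) := by
  unfold eInt
  rw [show ((∏ l, (I l).elim 1 fun _ => (hα (τ l)).int (g (τ l)) : integralClosure ℤ L) : L) =
    ∏ l, (((I l).elim 1 fun _ => (hα (τ l)).int (g (τ l)) : integralClosure ℤ L) : L) from
    map_prod (integralClosure ℤ L).val _ _,
    show ((∏ l, (I l).elim 1 fun _ => (hα (τ l)).int (g' (τ l)) : integralClosure ℤ L) : L) =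
    ∏ l, (((I l).elim 1 fun _ => (hα (τ l)).int (g' (τ l)) : integralClosure ℤ L) : L) from
    map_prod (integralClosure ℤ L).val _ _, map_prod]
  refine Finset.prod_congr rfl fun l _ => ?_
  rcases I l with _ | _
  · exact map_one σ
  · exact hσ (τ l)

/-- At every place above `p` some pure product is a unit. -/
theorem eInt_unit (hα : ∀ s, OrdWeil p q (P s) (α s)) (τ : Fin m → Fin r)
    (I : ∀ l, BasO (n (τ l)) (a (τ l))) {J : Ideal (integralClosure ℤ L)} (hJ : J.IsPrime)
    (hp : (p : integralClosure ℤ L) ∈ J) : ∃ g : ∀ s, Fin (n s), eInt hα τ I g ∉ J := by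
  choose g hg using fun s => (hα s).exists_unit hJ hp
  refine ⟨g, fun h => ?_⟩
  unfold eInt at h
  rw [hJ.prod_mem_iff] at h
  obtain ⟨l, -, hl⟩ := h
  rcases hIl : I l with _ | _
  · rw [hIl] at hl
    exact hJ.ne_top ((Ideal.eq_top_iff_one _).2 hl)
  · rw [hIl] at hl
    exact hg (τ l) hl

/-- The generalised Tate conjecture in coniveau one for products with ordinary elliptic K3
surfaces. -/
theorem ord_z [FiniteDimensional L H] {M : Type} [AddCommGroup M] [Module L M] [Module A M]
    (hr : 0 < r) (hS : ∀ s, EllK3 (S s))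
    (hα : ∀ s, OrdWeil p q (P s) (α s)) (hd : LinDisj α Φ) (c : ∀ s, FClasses (S s) (α s) A)
    {ρ : H →ₗ[L] M} (hZ : Tate1 q Φ ρ) (γ : ∀ s, Fin (a s) → L) (τ : Fin m → Fin r)
    {V : Submodule L ((∀ l, BasO (n (τ l)) (a (τ l))) → H)} (hV : ∀ t ∈ V, frobT α γ τ Φ t ∈ V)
    (hI : ∀ μ : L, ∀ t ∈ V, t ≠ 0 → frobT α γ τ Φ t = μ • t → IsIntegral ℤ (μ / q))
    (x : ∀ l, (S (τ l)).Pt K) :
    ∀ t ∈ V, ∑ I, (∏ l, (c (τ l)).clB (x l) (I l)) • ρ (t I) = 0 := by
  classical
  intro t ht
  refine Finset.sum_eq_zero fun I _ => ?_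
  by_cases hprod : ∏ l, (c (τ l)).clB (x l) (I l) = 0
  · rw [hprod, zero_smul]
  obtain ⟨g, hg⟩ := pure_index hS hα c τ x hprod
  have hq := (hα ⟨0, hr⟩).q_ne (L := L)
  set e : L := ∏ l, eigB (α (τ l)) (γ (τ l)) (I l) with he
  have heI : (eInt hα τ I g : L) = e := eInt_eq hα γ τ hg
  have he0 : e ≠ 0 := by
    rw [he, Finset.prod_ne_zero_iff]
    intro l _
    rcases hg l with h | h
    · rw [h]; exact one_ne_zero
    · rw [h]
      intro h0
      apply (hα (τ l)).not_int (g (τ l)) 1
      have : α (τ l) (g (τ l)) = 0 := h0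
      rw [this]; simp [isIntegral_zero]
  let F : Module.End L ((∀ l, BasO (n (τ l)) (a (τ l))) → H) :=
    { toFun := frobT α γ τ Φ
      map_add' := fun u v => by funext I; simp [frobT]
      map_smul' := fun b u => by
        funext I
        change (∏ l, eigB (α (τ l)) (γ (τ l)) (I l)) • Φ (b • u I) =
          b • ((∏ l, eigB (α (τ l)) (γ (τ l)) (I l)) • Φ (u I))
        rw [map_smul, smul_comm] }
  let FV : Module.End L V := F.restrict hV
  let π : V →ₗ[L] H := (LinearMap.proj I).comp V.subtype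
  have hπ : ∀ v : V, π (FV v) = (e • Φ) (π v) := fun v => rfl
  have hpoly : ∀ (Q : L[X]) (v : V), π (aeval FV Q v) = aeval (e • Φ : Module.End L H) Q (π v) := by
    intro Q
    induction Q using Polynomial.induction_on' with
    | add Q R hQ hR =>
      intro v
      rw [map_add, map_add, LinearMap.add_apply, LinearMap.add_apply, map_add, hQ, hR]
    | monomial k b =>
      intro v
      rw [Polynomial.aeval_monomial, Polynomial.aeval_monomial, Module.End.mul_apply,
        Module.End.mul_apply, Module.algebraMap_end_apply, Module.algebraMap_end_apply, map_smul]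
      congr 1
      induction k with
      | zero => rfl
      | succ k ih => rw [pow_succ', pow_succ', Module.End.mul_apply, Module.End.mul_apply, hπ, ih]
  set W : Submodule L H := LinearMap.range π with hW
  have hWs : ∀ w ∈ W, Φ w ∈ W := by
    rintro w ⟨v, rfl⟩
    refine ⟨e⁻¹ • FV v, ?_⟩
    rw [map_smul, hπ, LinearMap.smul_apply, smul_smul, inv_mul_cancel₀ he0, one_smul]
  have hWe : ∀ η : L, ∀ w ∈ W, w ≠ 0 → Φ w = η • w → IsIntegral ℤ (η / q) := by
    rintro η w ⟨v, rfl⟩ hw hη
    have hev : Module.End.HasEigenvalue Φ η :=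
      Module.End.hasEigenvalue_of_hasEigenvector ⟨Module.End.mem_eigenspace_iff.2 hη, hw⟩
    -- `e * η` is an eigenvalue on `V`
    have h1 : (minpoly L FV).IsRoot (e * η) := by
      have h20 : aeval FV (minpoly L FV) = 0 := minpoly.aeval L FV
      have h2 := hpoly (minpoly L FV) v
      rw [h20, LinearMap.zero_apply, map_zero,
        Module.End.aeval_apply_of_hasEigenvector (μ := e * η)
          ⟨Module.End.mem_eigenspace_iff.2 (by rw [LinearMap.smul_apply, hη, smul_smul]), hw⟩] at h2
      exact (smul_eq_zero_iff_left hw).1 h2.symm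
    obtain ⟨u, hu⟩ := (Module.End.hasEigenvalue_of_isRoot h1).exists_hasEigenvector
    have h2 : IsIntegral ℤ (e * η / q) := by
      refine hI (e * η) u u.2 (fun h0 => hu.2 (Subtype.ext h0)) ?_
      have h3 := hu.apply_eq_smul
      exact congrArg Subtype.val h3
    -- all the conjugates
    have h3 : ∀ g' : ∀ s, Fin (n s), IsIntegral ℤ ((eInt hα τ I g' : L) * (η / q)) := by
      intro g'
      obtain ⟨σ, hσ, hση⟩ := hd.trans hα g g'
      have h4 := h2.map σ.toRingHom.toIntAlgHom
      have h5 : σ.toRingHom.toIntAlgHom (e * η / q) = (eInt hα τ I g' : L) * (η / q) := by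
        change σ (e * η / q) = _
        rw [map_div₀, map_mul, map_natCast, ← heI, eInt_map hα τ I hσ, hση η hev]
        ring
      rwa [h5] at h4
    -- the conductor
    let C : Ideal (integralClosure ℤ L) :=
      { carrier := {y | IsIntegral ℤ ((y : L) * (η / q))}
        add_mem' := fun {y z} hy hz => by
          change IsIntegral ℤ (((y : L) + z) * (η / q))
          rw [add_mul]; exact hy.add hz
        zero_mem' := by
          change IsIntegral ℤ ((0 : L) * (η / q))
          rw [zero_mul]; exact isIntegral_zero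
        smul_mem' := fun y z hz => by
          change IsIntegral ℤ (((y : L) * z) * (η / q))
          rw [mul_assoc]; exact y.2.mul hz }
    have hC : C = ⊤ := by
      by_contra hne
      obtain ⟨M, hM, hCM⟩ := Ideal.exists_le_maximal C hne
      have hqM : (q : integralClosure ℤ L) ∈ M := by
        apply hCM
        change IsIntegral ℤ ((q : L) * (η / q))
        rw [mul_div_cancel₀ _ hq]
        exact hZ.int η hev
      obtain ⟨f, hf, hqf⟩ := (hα ⟨0, hr⟩).pow
      have hpM : (p : integralClosure ℤ L) ∈ M := by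
        rw [hqf, Nat.cast_pow] at hqM
        exact hM.isPrime.mem_of_pow_mem f hqM
      obtain ⟨g', hg'⟩ := eInt_unit hα τ I hM.isPrime hpM
      exact hg' (hCM (h3 g'))
    have h4 : (1 : integralClosure ℤ L) ∈ C := by rw [hC]; exact Submodule.mem_top
    have h5 : IsIntegral ℤ (((1 : integralClosure ℤ L) : L) * (η / q)) := h4
    rwa [show ((1 : integralClosure ℤ L) : L) = 1 from rfl, one_mul] at h5
  have h1 := hZ.con W hWs hWe (t I) ⟨⟨t, ht⟩, rfl⟩
  rw [h1, smul_zero]

/-- The generalised Tate conjecture for a point. -/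
theorem tate1_point {q : ℕ} (hq : 2 ≤ q) {M : Type} [AddCommGroup M] [Module L M]
    (ρ : L →ₗ[L] M) : Tate1 q (LinearMap.id : L →ₗ[L] L) ρ where
  int := by
    intro η hη
    obtain ⟨v, hv⟩ := hη.exists_hasEigenvector
    have h1 := hv.apply_eq_smul
    rw [LinearMap.id_apply, smul_eq_mul] at h1
    have : η = 1 := (mul_eq_right₀ hv.2).1 h1.symm
    rw [this]
    exact isIntegral_one
  con := by
    intro W _ h w hw
    by_contra h0
    have hw0 : w ≠ 0 := by rintro rfl; exact h0 (map_zero ρ)
    have h1 := h 1 w hw hw0 (by rw [LinearMap.id_apply, one_smul])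
    have h2 : IsIntegral ℤ ((1 : ℚ) / q) := by
      have h3 : algebraMap ℚ L ((1 : ℚ) / q) = 1 / q := by
        rw [map_div₀, map_one, map_natCast]
      rw [← h3] at h1
      exact (isIntegral_algebraMap_iff (algebraMap ℚ L).injective).1 h1
    obtain ⟨z, hz⟩ := IsIntegrallyClosed.isIntegral_iff.1 h2
    have hq' : (q : ℚ) ≠ 0 := by positivity
    have h3 : z * (q : ℤ) = 1 := by
      have h4 : (z : ℚ) * q = 1 := by
        rw [eq_intCast] at hz
        rw [hz]; field_simp
      exact_mod_cast h4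
    have h4 := Int.isUnit_iff.1 (IsUnit.of_mul_eq_one_right (b := (q : ℤ)) z h3)
    omega

end Pool.Agent.H833.CV
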